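import Pool.Agent.P.MP_ac4909_gt.Path

/-! Families of levels `r`, the roots of unity `aa t = -exp(iπ/2r)`, and evaluation of rational
functions as germs at infinity. -/

namespace Pool.Agent.P.MP_53e370_gt

open Filter Topology Pool.Agent.P.MP_ac4909_gt

/-- a sequence of levels that tends to infinity, with large cyclotomic degrees -/
class Fam where
  r : ℕ → ℕ
  tend : Tendsto r atTop atTop
  four : ∀ t, 4 ≤ r t
  tot : ∀ t, r t ≤ Nat.totient (4 * r t)

variable [F : Fam]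

/-- the level -/
def rr (t : ℕ) : ℕ := F.r t

theorem rr_four (t : ℕ) : 4 ≤ rr t := F.four t

theorem rr_pos (t : ℕ) : 0 < rr t := lt_of_lt_of_le (by norm_num) (rr_four t)

theorem rr_posR (t : ℕ) : (0 : ℝ) < rr t := by exact_mod_cast rr_pos t

theorem rr_neC (t : ℕ) : (rr t : ℂ) ≠ 0 := by exact_mod_cast (rr_pos t).ne'

theorem rr_tend : Tendsto (fun t => (rr t : ℝ)) atTop atTop :=
  tendsto_natCast_atTop_atTop.comp F.tend

/-- `-exp(iπ/(2r))`: a primitive root of unity of order `4r` -/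
noncomputable def aa (t : ℕ) : ℂ := -Complex.exp (Real.pi * Complex.I / (2 * rr t))

theorem aa_ne (t : ℕ) : aa t ≠ 0 := by simp [aa]

theorem aa_prim (t : ℕ) : IsPrimitiveRoot (aa t) (4 * rr t) := by
  have hc : (2 * rr t + 1).Coprime (4 * rr t) := by
    refine Nat.Coprime.mul_right ?_ ?_
    · exact Nat.Coprime.pow_right (n := 2) (k := 2 * rr t + 1) (m := 2) (by simp)
    · rw [add_comm]
      simp
  have h0 := rr_pos t
  have h := Complex.isPrimitiveRoot_exp_of_coprime _ _ (by omega) hc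
  have e : aa t = Complex.exp (2 * Real.pi * Complex.I *
      (((2 * rr t + 1 : ℕ) : ℂ) / ((4 * rr t : ℕ) : ℂ))) := by
    rw [aa, ← Complex.exp_add_pi_mul_I]
    congr 1
    have := rr_neC t
    push_cast
    field_simp
    ring
  rwa [e]

theorem norm_aa (t : ℕ) : ‖aa t‖ = 1 :=
  (aa_prim t).norm'_eq_one (by have := rr_pos t; omega)

theorem aa_sq (t : ℕ) : aa t ^ 2 = Complex.exp (Real.pi * Complex.I / rr t) := by
  rw [aa, neg_sq, ← Complex.exp_nat_mul]
  congr 1
  have := rr_neC t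
  push_cast
  field_simp

theorem aa_two_r (t : ℕ) : aa t ^ (2 * rr t) = -1 := by
  rw [pow_mul, aa_sq, ← Complex.exp_nat_mul, ← Complex.exp_pi_mul_I]
  congr 1
  have := rr_neC t
  field_simp

theorem tendsto_aa : Tendsto aa atTop (𝓝 (-1)) := by
  have h1 : Tendsto (fun t : ℕ => (((rr t : ℝ)⁻¹ : ℝ) : ℂ)) atTop (𝓝 ((0 : ℝ) : ℂ)) :=
    (Complex.continuous_ofReal.tendsto _).comp (tendsto_inv_atTop_zero.comp rr_tend)
  have h2 := ((Complex.continuous_exp.tendsto _).comp
    (h1.const_mul (Real.pi * Complex.I / 2))).neg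
  rw [Complex.ofReal_zero, mul_zero, Complex.exp_zero] at h2
  refine h2.congr (fun t => ?_)
  simp only [aa, Function.comp]
  congr 2
  have := rr_neC t
  push_cast
  field_simp

theorem dlt_aa (t : ℕ) : dlt (aa t) = -((2 * Real.cos (Real.pi / rr t) : ℝ) : ℂ) := by
  rw [dlt, inv_pow, aa_sq, ← Complex.exp_neg]
  push_cast
  rw [Complex.two_cos]
  ring_nf

theorem adm_aa (t : ℕ) : Adm (aa t) (rr t - 1) := by
  intro j hj h
  have h1 := Dl_closed (aa t) (aa_ne t) j
  rw [h, mul_zero, eq_comm, mul_eq_zero, sub_eq_zero] at h1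
  have h2 := h1.resolve_left (pow_ne_zero _ (neg_ne_zero.2 one_ne_zero))
  have h3 : aa t ^ (4 * (j + 1)) = 1 := by
    have e : 4 * (j + 1) = (2 * j + 2) + (2 * j + 2) := by ring
    rw [e, pow_add]
    nth_rewrite 2 [h2]
    rw [← mul_pow, mul_inv_cancel₀ (aa_ne t), one_pow]
  have h4 := Nat.le_of_dvd (by omega) ((aa_prim t).dvd_of_pow_eq_one _ h3)
  omega

theorem Dl_aa (t : ℕ) : Dl (aa t) (rr t - 1) = 0 := by
  have h1 := Dl_closed (aa t) (aa_ne t) (rr t - 1)
  have h0 := rr_four t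
  have e : 2 * (rr t - 1) + 2 = 2 * rr t := by omega
  have h2 : aa t ^ (2 * rr t) = (aa t)⁻¹ ^ (2 * rr t) := by
    rw [inv_pow, aa_two_r]
    norm_num
  rw [e, h2, sub_self, mul_zero, mul_eq_zero, sub_eq_zero] at h1
  refine h1.resolve_left (fun h => ?_)
  have h3 : aa t ^ 4 = 1 := by
    have e : 4 = 2 + 2 := rfl
    rw [e, pow_add]
    nth_rewrite 2 [h]
    rw [← mul_pow, mul_inv_cancel₀ (aa_ne t), one_pow]
  have h4 := Nat.le_of_dvd (by omega) ((aa_prim t).dvd_of_pow_eq_one _ h3)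
  omega

theorem aeval_aa_ne {p : Polynomial ℚ} (hp : p ≠ 0) {t : ℕ} (h : p.natDegree < rr t) :
    Polynomial.aeval (aa t) p ≠ 0 := by
  intro h0
  have h1 := Polynomial.natDegree_le_of_dvd (minpoly.dvd ℚ (aa t) h0) hp
  have h2 := rr_pos t
  rw [← Polynomial.cyclotomic_eq_minpoly_rat (aa_prim t) (by omega),
    Polynomial.natDegree_cyclotomic] at h1
  have h3 : rr t ≤ Nat.totient (4 * rr t) := F.tot t
  omega

/-- a nontrivial rational combination of distinct powers with small exponents does not vanish -/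
theorem sum_zpow_aa_ne {σ : Type} (S : Finset σ) (c : σ → ℚ) (e : σ → ℤ) (t : ℕ)
    (hc : ∃ x ∈ S, c x ≠ 0) (hinj : Set.InjOn e S) (he : ∀ x ∈ S, 2 * |e x| < rr t) :
    ∑ x ∈ S, (c x : ℂ) * aa t ^ e x ≠ 0 := by
  classical
  obtain ⟨x0, hx0, hc0⟩ := hc
  obtain ⟨r, hr⟩ : ∃ r : ℕ, r = (rr t - 1) / 2 := ⟨_, rfl⟩
  have he' : ∀ x ∈ S, -(r : ℤ) ≤ e x ∧ e x ≤ r := fun x hx => by
    have := he x hx
    refine abs_le.1 ?_
    omega
  set p : Polynomial ℚ := ∑ x ∈ S, Polynomial.monomial (e x + r).toNat (c x) with hp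
  have hp0 : p ≠ 0 := by
    intro h
    apply hc0
    have h1 : p.coeff (e x0 + r).toNat = c x0 := by
      rw [hp, Polynomial.finsetSum_coeff, Finset.sum_eq_single x0]
      · simp
      · intro y hy hne
        rw [Polynomial.coeff_monomial, if_neg]
        intro h2
        have h3 := he' y hy
        have h4 := he' x0 hx0
        exact hne (hinj hy hx0 (by omega))
      · intro h2; exact absurd hx0 h2
    rw [← h1, h, Polynomial.coeff_zero]
  have hdeg : p.natDegree < rr t := by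
    have h0 := rr_pos t
    refine lt_of_le_of_lt (Polynomial.natDegree_sum_le_of_forall_le (n := 2 * r) _ _
      fun x hx => (Polynomial.natDegree_monomial_le _).trans ?_) (by omega)
    have := he' x hx
    omega
  intro h
  apply aeval_aa_ne hp0 (t := t) hdeg
  have h1 : Polynomial.aeval (aa t) p = (∑ x ∈ S, (c x : ℂ) * aa t ^ e x) * aa t ^ (r : ℤ) := by
    rw [hp, map_sum, Finset.sum_mul]
    refine Finset.sum_congr rfl (fun x hx => ?_)
    have h2 := he' x hx
    rw [Polynomial.aeval_monomial, mul_assoc, ← zpow_add₀ (aa_ne t), ← zpow_natCast,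
      Int.toNat_of_nonneg (by omega)]
    rfl
  rw [h1, h, zero_mul]

theorem root_ev_lt (n : ℕ) : ∀ᶠ t : ℕ in atTop, n < rr t := F.tend.eventually_gt_atTop n

theorem exists_theta : ∃ θ : RatFunc ℚ →+* Germ (atTop : Filter ℕ) ℂ, ∀ p : Polynomial ℚ,
    θ (algebraMap (Polynomial ℚ) (RatFunc ℚ) p) =
      ((fun t => Polynomial.aeval (aa t) p : ℕ → ℂ) : Germ atTop ℂ) := by
  let φ : Polynomial ℚ →+* Germ (atTop : Filter ℕ) ℂ := (Germ.coeRingHom atTop).comp
    (RingHom.pi fun t => (Polynomial.aeval (aa t) : Polynomial ℚ →ₐ[ℚ] ℂ).toRingHom)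
  have hφ : ∀ p, φ p = ((fun t => Polynomial.aeval (aa t) p : ℕ → ℂ) : Germ atTop ℂ) :=
    fun _ => rfl
  have hu : ∀ y : nonZeroDivisors (Polynomial ℚ), IsUnit (φ y) := by
    intro y
    refine IsUnit.of_mul_eq_one
      ((fun t => (Polynomial.aeval (aa t) (y : Polynomial ℚ))⁻¹ : ℕ → ℂ) : Germ atTop ℂ) ?_
    rw [hφ, ← Germ.coe_mul, ← Germ.coe_one, Germ.coe_eq]
    filter_upwards [root_ev_lt (y : Polynomial ℚ).natDegree] with t ht
    exact mul_inv_cancel₀ (aeval_aa_ne (nonZeroDivisors.coe_ne_zero y) ht)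
  exact ⟨IsLocalization.lift hu, fun p => (IsLocalization.lift_eq hu p).trans (hφ p)⟩

/-- evaluation of a rational function at `aa t`, as a germ at `t = ∞` -/
noncomputable def theta : RatFunc ℚ →+* Germ (atTop : Filter ℕ) ℂ := exists_theta.choose

theorem theta_poly (p : Polynomial ℚ) : theta (algebraMap (Polynomial ℚ) (RatFunc ℚ) p) =
    ((fun t => Polynomial.aeval (aa t) p : ℕ → ℂ) : Germ atTop ℂ) := exists_theta.choose_spec p

theorem root_theta_pow (n : ℕ) :
    theta (RatFunc.X ^ n) = ((fun t => aa t ^ n : ℕ → ℂ) : Germ atTop ℂ) := by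
  rw [← RatFunc.algebraMap_X, ← map_pow, theta_poly]
  simp

theorem theta_X_zpow (n : ℤ) :
    theta (RatFunc.X ^ n) = ((fun t => aa t ^ n : ℕ → ℂ) : Germ atTop ℂ) := by
  obtain ⟨m, rfl | rfl⟩ := n.eq_nat_or_neg
  · simp only [zpow_natCast]
    exact root_theta_pow m
  · have h1 : theta (RatFunc.X ^ (-(m : ℤ))) * theta (RatFunc.X ^ m) = 1 := by
      rw [← map_mul, zpow_neg, zpow_natCast, inv_mul_cancel₀ (pow_ne_zero _ RatFunc.X_ne_zero),
        map_one]
    have h2 : theta (RatFunc.X ^ m) * ((fun t => aa t ^ (-(m : ℤ)) : ℕ → ℂ) : Germ atTop ℂ) =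
        1 := by
      rw [root_theta_pow, ← Germ.coe_mul, ← Germ.coe_one]
      congr 1
      funext t
      rw [Pi.mul_apply, zpow_neg, zpow_natCast, mul_inv_cancel₀ (pow_ne_zero _ (aa_ne t))]
      rfl
    exact left_inv_eq_right_inv h1 h2

theorem exists_uModel (t : ℕ) : Nonempty (UModel (aa t)) := by
  obtain ⟨n, hn⟩ : ∃ n, rr t = n + 2 + 1 := ⟨rr t - 3, by have := rr_four t; omega⟩
  have h2 : (rr t : ℝ) = ((n + 2 : ℕ) : ℝ) + 1 := by exact_mod_cast hn
  refine PathM.exists_model (a := PathM.adjA (n + 2)) PathM.adjA_mul PathM.adjA_sum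
    (u := 0) (v := 1) ?_ (aa_ne t) (by rw [dlt_aa, h2])
  unfold PathM.adjA
  rw [if_pos (Or.inl (by simp))]
  exact (Real.sqrt_pos.2 (div_pos (PathM.lam_pos _) (PathM.lam_pos _))).ne'

end Pool.Agent.P.MP_53e370_gt
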