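import Pool.Agent.P.MP_ac4909_gt.DFT
import Pool.Agent.P.MP_53e370_gt.GM

/-! The discrete Fourier transform of a periodic holonomic function is a holonomic germ. -/

namespace Pool.Agent.P.MP_53e370_gt

open Filter Pool.Agent.P.MP_ac4909_gt

variable [F : Fam] {ι : Type} [Fintype ι] [DecidableEq ι]

/-- Fourier transform on `(ℤ/2r)^ι` -/
noncomputable def Psi (G : ℕ → (ι → ℤ) → ℂ) (t : ℕ) (n : ι → ℤ) : ℂ :=
  ∑ k ∈ Fintype.piFinset fun _ : ι => Finset.Ico (0 : ℤ) (2 * (rr t : ℤ)),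
    aa t ^ (2 * (n ⬝ᵥ k)) * G t k

theorem DFT_shift (G : ℕ → (ι → ℤ) → ℂ) (t : ℕ)
    (hG : ∀ k i, G t (k + Pi.single i (2 * (rr t : ℤ))) = G t k) (u w : ι → ℤ) :
    aa t ^ (2 * (-u ⬝ᵥ w)) * Psi G t w =
      ∑ k ∈ Fintype.piFinset fun _ : ι => Finset.Ico (0 : ℤ) (2 * (rr t : ℤ)),
        aa t ^ (2 * (w ⬝ᵥ k)) * G t (k + u) := by
  have hc : ((2 * rr t : ℕ) : ℤ) = 2 * (rr t : ℤ) := by push_cast; rfl
  have h1 := sum_box_shift (2 * rr t) (by have := rr_pos t; omega)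
    (fun k => aa t ^ (2 * (-u ⬝ᵥ w)) * (aa t ^ (2 * (w ⬝ᵥ k)) * G t k)) (by
      intro k i
      rw [hc, hG, dotProduct_add, dotProduct_single, mul_add, zpow_add₀ (aa_ne t)]
      have h2 : aa t ^ (2 * (w i * (2 * (rr t : ℤ)))) = 1 := by
        have h3 : 2 * (w i * (2 * (rr t : ℤ))) = ((4 * rr t : ℕ) : ℤ) * w i := by
          push_cast; ring
        rw [h3, zpow_mul, zpow_natCast, (aa_prim t).pow_eq_one, one_zpow]
      rw [h2, mul_one]) u
  rw [hc] at h1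
  rw [Psi, Finset.mul_sum, ← h1]
  refine Finset.sum_congr rfl fun k _ => ?_
  rw [← mul_assoc, ← zpow_add₀ (aa_ne t)]
  congr 2
  rw [dotProduct_add, neg_dotProduct, dotProduct_comm u w]
  ring

theorem holG_Psi (g : (ι → ℤ) → LaurentPolynomial ℤ)
    (hg : HolF (uA ^ 2) fun k => lev RatFunc.X RatFunc.X_ne_zero (g k))
    (hper : ∀ᶠ t in atTop, ∀ k i, lev (aa t) (aa_ne t) (g (k + Pi.single i (2 * (rr t : ℤ)))) =
      lev (aa t) (aa_ne t) (g k)) :
    HolG (Psi fun t k => lev (aa t) (aa_ne t) (g k)) := by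
  refine QT.hol_of_rel (funQT (uA ^ 2) ι) (germQT ι) hg ?_
  intro S c hrel
  obtain ⟨b, hb⟩ := IsLocalization.exist_integer_multiples (nonZeroDivisors (Polynomial ℚ)) S c
  choose! p hp using hb
  have hb0 : algebraMap (Polynomial ℚ) (RatFunc ℚ) b ≠ 0 :=
    RatFunc.algebraMap_ne_zero (nonZeroDivisors.coe_ne_zero b)
  have hp' : ∀ z ∈ S, algebraMap (Polynomial ℚ) (RatFunc ℚ) (p z) =
      algebraMap (Polynomial ℚ) (RatFunc ℚ) b * c z := by
    intro z hz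
    rw [hp z hz, Algebra.smul_def]
  have hrel' : ∀ t k, ∑ z ∈ S, Polynomial.aeval (aa t) (p z) *
      (aa t ^ (2 * (z.2 ⬝ᵥ k)) * lev (aa t) (aa_ne t) (g (k + z.1))) = 0 := by
    intro t k
    have h1 := congrFun hrel k
    rw [Finset.sum_apply] at h1
    have h2 := eval_rel S p (fun z => LaurentPolynomial.T (2 * (z.2 ⬝ᵥ k)) * g (k + z.1)) (by
      have h3 := congrArg (fun y => algebraMap (Polynomial ℚ) (RatFunc ℚ) b * y) h1
      simp only [Pi.zero_apply, mul_zero, Finset.mul_sum] at h3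
      rw [← h3]
      refine Finset.sum_congr rfl fun z hz => ?_
      rw [hp' z hz, map_mul, lev_T, Pi.smul_apply, funQT_Q, funQT_E, smul_eq_mul, mul_assoc,
        zpow_mul, Units.val_pow_eq_pow_val]
      rfl) (aa t) (aa_ne t)
    simpa only [map_mul, lev_T] using h2
  refine (smul_eq_zero_iff_right hb0).1 ?_
  rw [Finset.smul_sum]
  have e : ∀ z ∈ S, algebraMap (Polynomial ℚ) (RatFunc ℚ) b • c z •
      (germQT ι).E z.2 ((germQT ι).Q (-z.1)
        (GM.mk (Psi fun t k => lev (aa t) (aa_ne t) (g k)))) =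
      GM.mk fun t n => Polynomial.aeval (aa t) (p z) * (aa t ^ (2 * (-z.1 ⬝ᵥ (n + z.2))) *
        Psi (fun t k => lev (aa t) (aa_ne t) (g k)) t (n + z.2)) := by
    intro z hz
    rw [smul_smul, ← hp' z hz, germQT_Q, germQT_E, GM.smul_mk _ _ (theta_poly (p z))]
  rw [Finset.sum_congr rfl e, GM.sum_mk, GM.mk_eq_zero]
  filter_upwards [hper] with t ht n
  have h4 : ∀ z : (ι → ℤ) × (ι → ℤ), aa t ^ (2 * (-z.1 ⬝ᵥ (n + z.2))) *
      Psi (fun t k => lev (aa t) (aa_ne t) (g k)) t (n + z.2) = _ := fun z =>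
    DFT_shift (fun t k => lev (aa t) (aa_ne t) (g k)) t ht z.1 (n + z.2)
  simp only [h4, Finset.mul_sum]
  rw [Finset.sum_comm]
  refine Finset.sum_eq_zero fun k _ => ?_
  have h5 := congrArg (fun y => aa t ^ (2 * (n ⬝ᵥ k)) * y) (hrel' t k)
  simp only [mul_zero, Finset.mul_sum] at h5
  rw [← h5]
  refine Finset.sum_congr rfl fun z _ => ?_
  rw [add_dotProduct, mul_add, zpow_add₀ (aa_ne t)]
  ring

end Pool.Agent.P.MP_53e370_gt
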