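import Pool.Agent.P.MP_ac4909_gt.Defs

/-! The linking matrix of a framed link diagram. -/

namespace Pool.Agent.P.MP_53e370_gt

open Pool.Agent.P.MP_ac4909_gt

variable {ι : Type} [DecidableEq ι]

/-- The sign of the crossing `cr x y s` of two oriented strands: for strands that run in the same
vertical direction it is `+1` iff the strand from lower left to upper right is on top. -/
def crSign (x y : Arc ι) (s : Bool) : ℤ := if (x.up = y.up ↔ s = true) then 1 else -1

/-- The sign of the crossing if component `i` passes under component `j` there, otherwise `0`. -/
def lkGen (i j : ι) : Gen (Arc ι) → ℤ
  | .cr x y s =>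
    if (if s then y else x).name = i ∧ (if s then x else y).name = j then crSign x y s else 0
  | _ => 0

/-- The linking matrix: the sum of the signs of the crossings where `i` passes under `j`.  This is
the linking number for `i ≠ j`, and the writhe (the blackboard framing) for `i = j`. -/
def lk (L : List (Sl (Arc ι))) (i j : ι) : ℤ := (L.map fun s => lkGen i j s.g).sum

end Pool.Agent.P.MP_53e370_gt
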