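import Pool.Agent.P.MP_ac4909_gt.FDHyp
import Pool.Agent.P.MP_53e370_gt.GM

/-! Finite determination: a holonomic germ that vanishes at every fixed point vanishes on boxes of
size proportional to the level. -/

namespace Pool.Agent.P.MP_53e370_gt

open Filter Pool.Agent.P.MP_ac4909_gt

variable [F : Fam]

/-- off finitely many hyperplanes an exponential polynomial does not vanish on a box of size
proportional to `r` -/
theorem exists_hyperplanes {α : Type} [Fintype α] (S : Finset ((α → ℤ) × ℕ)) (c : (α → ℤ) × ℕ → ℚ)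
    (hc : ∃ z ∈ S, c z ≠ 0) :
    ∃ (H : Finset ((α → ℤ) × ℤ)) (ε : ℝ), (∀ h ∈ H, h.1 ≠ 0) ∧ 0 < ε ∧
      ∀ᶠ t in atTop, ∀ n : α → ℤ, (∀ i, (|n i| : ℝ) ≤ ε * (rr t : ℝ)) → (∀ h ∈ H, h.1 ⬝ᵥ n ≠ h.2) →
        ∑ z ∈ S, (c z : ℂ) * aa t ^ ((z.2 : ℤ) + 2 * (z.1 ⬝ᵥ n)) ≠ 0 := by
  classical
  obtain ⟨B, hB0, hB⟩ : ∃ B : ℝ, 0 < B ∧ ∀ z ∈ S, ∑ i, |(z.1 i : ℝ)| ≤ B := by
    have h0 : ∀ z ∈ S, 0 ≤ ∑ i, |(z.1 i : ℝ)| := fun z _ =>
      Finset.sum_nonneg fun _ _ => abs_nonneg _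
    refine ⟨∑ z ∈ S, ∑ i, |(z.1 i : ℝ)| + 1, ?_, fun z hz => ?_⟩
    · linarith [Finset.sum_nonneg h0]
    · linarith [Finset.single_le_sum h0 hz]
  refine ⟨((S ×ˢ S).filter fun z => z.1.1 ≠ z.2.1).image
    fun z => (2 • (z.1.1 - z.2.1), (z.2.2 : ℤ) - z.1.2), 1 / (8 * B), ?_, by positivity, ?_⟩
  · intro h hh
    obtain ⟨z, hz, rfl⟩ := Finset.mem_image.1 hh
    exact smul_ne_zero two_ne_zero (sub_ne_zero.2 (Finset.mem_filter.1 hz).2)
  · filter_upwards [rr_tend.eventually_gt_atTop (4 * ∑ z ∈ S, (z.2 : ℝ))] with t ht n hn hH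
    refine sum_zpow_aa_ne S c _ t hc (fun z hz z' hz' e => ?_) fun z hz => ?_
    · by_cases h : z.1 = z'.1
      · refine Prod.ext h ?_
        simp only [h, add_left_inj, Nat.cast_inj] at e
        exact e
      · refine (hH _ (Finset.mem_image.2 ⟨(z, z'), Finset.mem_filter.2
          ⟨Finset.mem_product.2 ⟨hz, hz'⟩, h⟩, rfl⟩) ?_).elim
        simp only [two_smul, add_dotProduct, sub_dotProduct] at e ⊢
        linarith
    · have h1 : (z.2 : ℝ) ≤ ∑ z ∈ S, (z.2 : ℝ) :=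
        Finset.single_le_sum (f := fun z : (α → ℤ) × ℕ => (z.2 : ℝ))
          (fun _ _ => Nat.cast_nonneg _) hz
      have h2 : |((z.1 ⬝ᵥ n : ℤ) : ℝ)| ≤ (rr t : ℝ) / 8 := by
        rw [dotProduct, Int.cast_sum]
        refine (Finset.abs_sum_le_sum_abs _ _).trans ?_
        calc ∑ i, |((z.1 i * n i : ℤ) : ℝ)| ≤ ∑ i, |(z.1 i : ℝ)| * (1 / (8 * B) * (rr t : ℝ)) :=
              Finset.sum_le_sum fun i _ => by
                rw [Int.cast_mul, abs_mul]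
                exact mul_le_mul_of_nonneg_left (hn i) (abs_nonneg _)
          _ ≤ B * (1 / (8 * B) * (rr t : ℝ)) := by
              rw [← Finset.sum_mul]
              exact mul_le_mul_of_nonneg_right (hB z hz) (by positivity)
          _ = (rr t : ℝ) / 8 := by field_simp
      have h3 : 2 * |(z.2 : ℝ) + 2 * ((z.1 ⬝ᵥ n : ℤ) : ℝ)| < rr t := by
        have h4 := abs_add_le (z.2 : ℝ) (2 * ((z.1 ⬝ᵥ n : ℤ) : ℝ))
        rw [abs_mul, abs_two, Nat.abs_cast] at h4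
        linarith
      exact_mod_cast h3

/-- vanishing on the points of large boxes that satisfy `p` -/
def FDVan {α : Type} (Ψ : ℕ → (α → ℤ) → ℂ) (p : (α → ℤ) → Prop) : Prop :=
  ∃ ε : ℝ, 0 < ε ∧ ∀ᶠ t in atTop, ∀ n : α → ℤ, (∀ i, (|n i| : ℝ) ≤ ε * (rr t : ℝ)) → p n → Ψ t n = 0

theorem FDVan.mono {α : Type} {Ψ : ℕ → (α → ℤ) → ℂ} {p q : (α → ℤ) → Prop} (h : FDVan Ψ p)
    (hq : ∀ n, q n → p n) : FDVan Ψ q := by
  obtain ⟨ε, h0, h⟩ := h
  exact ⟨ε, h0, h.mono fun t ht n hn hqn => ht n hn (hq n hqn)⟩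

theorem FDVan.or {α : Type} {Ψ : ℕ → (α → ℤ) → ℂ} {p q : (α → ℤ) → Prop} (h : FDVan Ψ p)
    (h' : FDVan Ψ q) : FDVan Ψ fun n => p n ∨ q n := by
  obtain ⟨ε, h0, h⟩ := h
  obtain ⟨ε', h0', h'⟩ := h'
  refine ⟨min ε ε', lt_min h0 h0', (h.and h').mono fun t ht n hn hpq => ?_⟩
  rcases hpq with h1 | h1
  · exact ht.1 n (fun i => (hn i).trans
      (mul_le_mul_of_nonneg_right (min_le_left _ _) (by positivity))) h1
  · exact ht.2 n (fun i => (hn i).trans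
      (mul_le_mul_of_nonneg_right (min_le_right _ _) (by positivity))) h1

theorem FDVan.union {α σ : Type} {Ψ : ℕ → (α → ℤ) → ℂ} (S : Finset σ) (p : σ → (α → ℤ) → Prop)
    (h : ∀ s ∈ S, FDVan Ψ (p s)) : FDVan Ψ fun n => ∃ s ∈ S, p s n := by
  classical
  induction S using Finset.induction_on with
  | empty => exact ⟨1, one_pos, Eventually.of_forall fun t n _ hn => by simp at hn⟩
  | insert a S _ ih =>
    refine ((h a (Finset.mem_insert_self a S)).or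
      (ih fun s hs => h s (Finset.mem_insert_of_mem hs))).mono ?_
    rintro n ⟨s, hs, hn⟩
    rcases Finset.mem_insert.1 hs with rfl | hs
    · exact Or.inl hn
    · exact Or.inr ⟨s, hs, hn⟩

theorem fd_hyp {k : ℕ} (ih : ∀ (α : Type) [Fintype α], Fintype.card α = k →
      ∀ Ψ : ℕ → (α → ℤ) → ℂ, HolG Ψ → (∀ n, ∀ᶠ t in atTop, Ψ t n = 0) →
      ∃ ε : ℝ, 0 < ε ∧ ∀ᶠ t in atTop, ∀ n : α → ℤ, (∀ i, (|n i| : ℝ) ≤ ε * (rr t : ℝ)) → Ψ t n = 0)
    {α : Type} [Fintype α] (hc : Fintype.card α = k + 1) {Ψ : ℕ → (α → ℤ) → ℂ} (hΨ : HolG Ψ)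
    (h0 : ∀ n, ∀ᶠ t in atTop, Ψ t n = 0) {b : α → ℤ} (hb : b ≠ 0) (β : ℤ) :
    FDVan Ψ fun n => b ⬝ᵥ n = β := by
  classical
  obtain ⟨i, hi⟩ := Function.ne_iff.1 hb
  obtain ⟨N, φ, hN⟩ := exists_param b i hi β
  have h1 : ∀ n₀ ∈ N, FDVan Ψ fun n => ∃ s : {j // j ≠ i} → ℤ,
      n = n₀ + φ s ∧ ∀ j, |s j| ≤ |n j.1| := by
    intro n₀ _
    obtain ⟨ε, hε, h⟩ := ih {j // j ≠ i} (by simp [hc]) _ (hΨ.pull n₀ φ) fun s => h0 _
    refine ⟨ε, hε, h.mono fun t ht n hn ⟨s, hs, hs'⟩ => ?_⟩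
    rw [hs]
    refine ht s fun j => le_trans ?_ (hn j.1)
    exact_mod_cast hs' j
  exact (FDVan.union N _ h1).mono hN

theorem fd_half {α : Type} [Fintype α] {Ψ : ℕ → (α → ℤ) → ℂ} (hΨ : HolG Ψ)
    (hyp : ∀ b : α → ℤ, b ≠ 0 → ∀ β : ℤ, FDVan Ψ fun n => b ⬝ᵥ n = β) (i : α) :
    FDVan Ψ fun n => 0 ≤ n i := by
  classical
  obtain ⟨S, c, hS, hc, hrel⟩ := hΨ.exists_rel i
  obtain ⟨zp, hzp, hp⟩ := S.exists_max_image (fun z => z.1) hS
  obtain ⟨zm, -, hm⟩ := S.exists_min_image (fun z => z.1) hS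
  obtain ⟨H, ε₁, hH, hε₁, hne⟩ := exists_hyperplanes
    ((S.filter fun z => z.1 = zp.1).image Prod.snd) (fun z => c (zp.1, z))
    ⟨zp.2, Finset.mem_image_of_mem _ (Finset.mem_filter.2 ⟨hzp, rfl⟩), hc zp hzp⟩
  obtain ⟨ε₂, hε₂, hv⟩ := (FDVan.union H
    (fun h n => h.1 ⬝ᵥ n = h.2 + h.1 ⬝ᵥ Pi.single i zp.1) fun h hh => hyp _ (hH h hh) _).or
    (FDVan.union (Finset.Ico 0 (zp.1 - zm.1)) (fun a n => Pi.single i 1 ⬝ᵥ n = a)
      fun a _ => hyp _ (by simp) a)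
  have hbig : ∀ᶠ t : ℕ in atTop, (|zp.1| : ℝ) ≤ ε₁ / 2 * (rr t : ℝ) :=
    (rr_tend.const_mul_atTop
      (half_pos hε₁)).eventually_ge_atTop _
  refine ⟨min (ε₁ / 2) ε₂, lt_min (half_pos hε₁) hε₂, ?_⟩
  filter_upwards [hrel, hne, hv, hbig] with t hrel hne hv hbig
  have key : ∀ m : ℕ, ∀ n : α → ℤ, (∀ j, (|n j| : ℝ) ≤ min (ε₁ / 2) ε₂ * (rr t : ℝ)) → 0 ≤ n i →
      n i < m → Ψ t n = 0 := by
    intro m
    induction m with
    | zero => intro n _ h1 h2; omega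
    | succ m ihm =>
      intro n hn h1 h2
      by_contra hΨn
      have h3 := fun h => hΨn (hv n (fun j => (hn j).trans
        (mul_le_mul_of_nonneg_right (min_le_right _ _) (by positivity))) h)
      have h4 : zp.1 - zm.1 ≤ n i := by
        by_contra h4
        exact h3 (Or.inr ⟨n i, Finset.mem_Ico.2 ⟨h1, by omega⟩, by simp⟩)
      have h5 := hne (n - Pi.single i zp.1) (fun j => by
        have e1 : (|n j| : ℝ) ≤ ε₁ / 2 * (rr t : ℝ) := (hn j).trans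
          (mul_le_mul_of_nonneg_right (min_le_left _ _) (by positivity))
        have e2 : |((Pi.single i zp.1 : α → ℤ) j : ℝ)| ≤ ε₁ / 2 * (rr t : ℝ) := by
          by_cases hj : j = i
          · subst hj
            simpa using hbig
          · rw [Pi.single_eq_of_ne hj]
            simp only [Int.cast_zero, abs_zero]
            positivity
        rw [Pi.sub_apply, Int.cast_sub]
        linarith [abs_sub (n j : ℝ) ((Pi.single i zp.1 : α → ℤ) j : ℝ)])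
        (fun h hh e => h3 (Or.inl ⟨h, hh, by rw [← e, dotProduct_sub, sub_add_cancel]⟩))
      have h6 := hrel (n - Pi.single i zp.1)
      rw [← Finset.sum_filter_add_sum_filter_not S fun z => z.1 = zp.1,
        Finset.sum_eq_zero (s := S.filter fun z => ¬ z.1 = zp.1), add_zero] at h6
      · refine mul_ne_zero h5 hΨn ?_
        rw [← h6, Finset.sum_image, Finset.sum_mul]
        · refine Finset.sum_congr rfl fun z hz => ?_
          rw [← (Finset.mem_filter.1 hz).2, sub_add_cancel]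
        · intro z hz z' hz' e
          exact Prod.ext ((Finset.mem_filter.1 hz).2.trans (Finset.mem_filter.1 hz').2.symm) e
      · intro z hz
        obtain ⟨hz1, hz2⟩ := Finset.mem_filter.1 hz
        have e1 := hp z hz1
        have e2 := hm z hz1
        have e3 : (n - Pi.single i zp.1 + Pi.single i z.1 : α → ℤ) i = n i - zp.1 + z.1 := by simp
        rw [ihm _ (fun j => ?_) (by rw [e3]; omega) (by rw [e3]; push_cast at h2; omega), mul_zero]
        refine le_trans ?_ (hn j)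
        by_cases hj : j = i
        · subst hj
          rw [e3]
          have : |n j - zp.1 + z.1| ≤ |n j| := by
            rw [abs_of_nonneg h1, abs_of_nonneg (by omega)]
            omega
          exact_mod_cast this
        · simp [Pi.single_eq_of_ne hj]
  exact fun n hn h1 => key ((n i).toNat + 1) n hn h1 (by push_cast; omega)

theorem HolG.vanish (k : ℕ) : ∀ (α : Type) [Fintype α], Fintype.card α = k →
    ∀ Ψ : ℕ → (α → ℤ) → ℂ, HolG Ψ → (∀ n, ∀ᶠ t in atTop, Ψ t n = 0) →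
      ∃ ε : ℝ, 0 < ε ∧ ∀ᶠ t in atTop, ∀ n : α → ℤ, (∀ i, (|n i| : ℝ) ≤ ε * (rr t : ℝ)) → Ψ t n = 0 := by
  induction k with
  | zero =>
    intro α _ hc Ψ _ h0
    have := Fintype.card_eq_zero_iff.1 hc
    exact ⟨1, one_pos, (h0 0).mono fun t ht n _ => by rwa [Subsingleton.elim n 0]⟩
  | succ k ih =>
    intro α _ hc Ψ hΨ h0
    obtain ⟨i⟩ : Nonempty α := Fintype.card_pos_iff.1 (by omega)
    have h1 := fd_half hΨ (fun b hb β => fd_hyp ih hc hΨ h0 hb β) i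
    have hΨ' := hΨ.pull 0 (-AddMonoidHom.id (α → ℤ))
    have h2 : FDVan Ψ fun n => n i ≤ 0 := by
      obtain ⟨ε, hε, h⟩ := fd_half hΨ' (fun b hb β => fd_hyp ih hc hΨ' (fun n => h0 _) hb β) i
      refine ⟨ε, hε, h.mono fun t ht n hn hi => ?_⟩
      simpa using ht (-n) (by simpa using hn) (by simpa using hi)
    obtain ⟨ε, hε, h⟩ := h1.or h2
    exact ⟨ε, hε, h.mono fun t ht n hn => ht n hn (le_total _ _)⟩

end Pool.Agent.P.MP_53e370_gt
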