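import Pool.Agent.P.MP_ac4909_gt.Fold
import Pool.Agent.P.MP_53e370_gt.DFT

/-! Vanishing of the meridian skeins means vanishing of the Fourier coefficients. -/

namespace Pool.Agent.P.MP_53e370_gt

open Filter Pool.Agent.P.MP_ac4909_gt

variable [F : Fam] {ι : Type} [Fintype ι] [DecidableEq ι]

theorem Psi_eventually_zero (J : ℕ → (ι → ℤ) → ℂ)
    (hodd : ∀ t k i, J t (Function.update k i (-k i)) = -J t k)
    (hper : ∀ᶠ t in atTop, ∀ k i, J t (k + Pi.single i (2 * (rr t : ℤ))) = J t k)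
    (hz : ∀ j : ι → ℕ, ∀ᶠ t in atTop,
      ∑ m ∈ Fintype.piFinset fun _ : ι => Finset.range (rr t - 1),
        (∏ i, Dl (aa t) (m i)) * ((∏ i, mu (aa t) (m i) ^ j i) * J t fun i => (m i : ℤ) + 1) = 0)
    (n : ι → ℤ) :
    ∀ᶠ t in atTop, Psi (fun t k => (∏ i, (-1 : ℂ) ^ (k i - 1)) * J t k) t n = 0 := by
  choose p hp using fun i => Fold_poly (n i)
  have hall := (Filter.eventually_all_finset
    (Fintype.piFinset fun i => Finset.range ((p i).natDegree + 1))).2 fun j _ => hz j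
  filter_upwards [hper, hall] with t hp1 hz1
  have hm1 : (-1 : ℂ) ≠ 0 := by norm_num
  have hsq : ∀ z : ℤ, (-1 : ℂ) ^ (2 * z) = 1 := fun z => by
    rw [zpow_mul]; norm_num
  have hsign : ∀ (k : ι → ℤ) (i : ι) (z : ℤ), (∏ j, (-1 : ℂ) ^ ((k + Pi.single i (2 * z) :
      ι → ℤ) j - 1)) = ∏ j, (-1 : ℂ) ^ (k j - 1) := by
    intro k i z
    refine Finset.prod_congr rfl fun j _ => ?_
    by_cases hj : j = i
    · subst hj
      rw [Pi.add_apply, Pi.single_eq_same, add_sub_right_comm, zpow_add₀ hm1, hsq, mul_one]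
    · rw [Pi.add_apply, Pi.single_eq_of_ne hj, add_zero]
  have ha := aa_ne t
  have ha4 : aa t ^ (4 * (rr t : ℤ)) = 1 := by
    have := (aa_prim t).pow_eq_one
    rw [← zpow_natCast] at this
    push_cast at this
    exact this
  have key := Fold_box (rr t) (fun k => (∏ i, (-1 : ℂ) ^ (k i - 1)) * J t k)
    (fun k i => by
      have e : Function.update k i (-k i) = k + Pi.single i (2 * -k i) := by
        funext j
        by_cases hj : j = i
        · subst hj
          simp; ring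
        · simp [hj]
      rw [hodd, e, hsign, mul_neg])
    (fun k i => by rw [hp1, hsign])
    (fun i x => aa t ^ (2 * (n i * x)))
  have e1 : ∀ k : ι → ℤ, aa t ^ (2 * (n ⬝ᵥ k)) = ∏ i, aa t ^ (2 * (n i * k i)) := by
    intro k
    rw [dotProduct, Finset.mul_sum]
    induction (Finset.univ : Finset ι) using Finset.induction_on with
    | empty => simp
    | insert j S hj ih => rw [Finset.sum_insert hj, Finset.prod_insert hj, zpow_add₀ ha, ih]
  unfold Psi
  simp only [e1]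
  push_cast at key
  rw [key]
  have e2 : ∀ (i : ι) (m : ℕ), (aa t ^ (2 * (n i * ((m : ℤ) + 1))) -
      aa t ^ (2 * (n i * (2 * (rr t : ℤ) - ((m : ℤ) + 1))))) * (-1 : ℂ) ^ ((m : ℤ) + 1 - 1) =
      (aa t ^ 2 - (aa t)⁻¹ ^ 2) * (Dl (aa t) m *
        ∑ j ∈ Finset.range ((p i).natDegree + 1), (p i).coeff j * mu (aa t) m ^ j) := by
    intro i m
    have h1 := hp i (aa t ^ (2 * m + 2)) (pow_ne_zero _ ha)
    have h2 : aa t ^ (2 * (n i * ((m : ℤ) + 1))) = (aa t ^ (2 * m + 2)) ^ n i := by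
      rw [← zpow_natCast, ← zpow_mul]
      congr 1
      push_cast; ring
    have h3 : aa t ^ (2 * (n i * (2 * (rr t : ℤ) - ((m : ℤ) + 1)))) =
        (aa t ^ (2 * m + 2))⁻¹ ^ n i := by
      have h4 : 2 * (n i * (2 * (rr t : ℤ) - ((m : ℤ) + 1))) =
          4 * (rr t : ℤ) * n i + -(2 * (n i * ((m : ℤ) + 1))) := by ring
      rw [h4, zpow_add₀ ha, zpow_mul, ha4, one_zpow, one_mul, zpow_neg, h2, inv_zpow]
    rw [h2, h3, h1, ← Polynomial.eval_eq_sum_range, ← mul_assoc, Dl_closed _ ha,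
      add_sub_cancel_right, zpow_natCast, mu, inv_pow]
    ring
  have e3 : ∀ m : ι → ℕ, (∏ i, (aa t ^ (2 * (n i * ((m i : ℤ) + 1))) -
      aa t ^ (2 * (n i * (2 * (rr t : ℤ) - ((m i : ℤ) + 1)))))) *
      ((∏ i, (-1 : ℂ) ^ ((m i : ℤ) + 1 - 1)) * J t fun i => (m i : ℤ) + 1) =
      ∑ j ∈ Fintype.piFinset fun i => Finset.range ((p i).natDegree + 1),
        ((∏ _i : ι, (aa t ^ 2 - (aa t)⁻¹ ^ 2)) * ∏ i, (p i).coeff (j i)) *
          ((∏ i, Dl (aa t) (m i)) *
            ((∏ i, mu (aa t) (m i) ^ j i) * J t fun i => (m i : ℤ) + 1)) := by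
    intro m
    rw [← mul_assoc, ← Finset.prod_mul_distrib]
    simp only [e2]
    rw [Finset.prod_mul_distrib, Finset.prod_mul_distrib, Finset.prod_univ_sum, Finset.mul_sum,
      Finset.mul_sum, Finset.sum_mul]
    refine Finset.sum_congr rfl fun j _ => ?_
    rw [Finset.prod_mul_distrib]
    ring
  simp only [e3]
  rw [Finset.sum_comm]
  refine Finset.sum_eq_zero fun j hj => ?_
  rw [← Finset.mul_sum, hz1 j hj, mul_zero]

end Pool.Agent.P.MP_53e370_gt
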