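import Pool.Agent.P.MP_ac4909_gt.Kernel
import Pool.Agent.P.MP_53e370_gt.Root

/-! A band-limited test kernel on `ℤ/2r`. -/

namespace Pool.Agent.P.MP_53e370_gt

open Filter Pool.Agent.P.MP_ac4909_gt

variable [F : Fam]

theorem kerE_aa (t : ℕ) (m : ℤ) : aa t ^ (2 * m) = kerE ((rr t : ℝ)) m := by
  rw [zpow_mul, zpow_ofNat, aa_sq, kerE, ← Complex.exp_int_mul]; congr 1; push_cast; ring

/-- for each large `t` a real trigonometric polynomial `w t` with frequencies at most `ε r`, of the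
sign of `k` on `[-r, r]`, bounded below at `1`, and uniformly of polynomial decay -/
theorem exists_kernel (ε : ℝ) (hε : 0 < ε) (N : ℕ) :
    ∃ (w : ℕ → ℤ → ℝ) (c C : ℝ), 0 < c ∧ ∀ᶠ t in atTop,
      (∃ (S : Finset ℤ) (b : ℤ → ℂ), (∀ n ∈ S, (|n| : ℝ) ≤ ε * (rr t : ℝ)) ∧
        ∀ k : ℤ, (w t k : ℂ) = ∑ n ∈ S, b n * aa t ^ (2 * (n * k))) ∧
      (∀ k : ℤ, |k| ≤ (rr t : ℤ) → 0 ≤ w t k * k) ∧ c ≤ w t 1 ∧
      ∀ k : ℤ, |k| ≤ (rr t : ℤ) → |w t k| * (|(k : ℝ)| + 1) ^ N ≤ C := by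
  have hpi := Real.pi_pos
  set η : ℝ := min (1 / 4) (ε / (4 * (N + 1))) with hη
  have hη0 : 0 < η := lt_min (by norm_num) (by positivity)
  have hη1 : η ≤ 1 / 4 := min_le_left _ _
  have hη2 : η * (4 * (N + 1)) ≤ ε := (le_div_iff₀ (by positivity)).1 (min_le_right _ _)
  have hN : (0 : ℝ) ≤ N := Nat.cast_nonneg N
  refine ⟨fun t k => (‖kerF ((rr t : ℝ)) ⌊η * (rr t : ℝ)⌋₊ k‖ ^ 2) ^ (N + 1) *
    ((rr t : ℝ) / Real.pi * Real.sin (Real.pi * k / (rr t : ℝ))), ((1 / 2) ^ 2) ^ (N + 1) * (2 / Real.pi),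
    (2 / η) ^ (N + 1) * 2 ^ N, by positivity, ?_⟩
  filter_upwards [rr_tend.eventually_ge_atTop (2 / η)] with t ht
  simp only [kerE_aa]
  have hcast : ∀ k : ℤ, |k| ≤ (rr t : ℤ) → |(k : ℝ)| ≤ (rr t : ℝ) := fun k hk => by exact_mod_cast hk
  set r : ℝ := (rr t : ℝ) with hr
  have hr0 : 0 < r := rr_posR t
  have hηr : 2 ≤ η * r := by rw [div_le_iff₀ hη0] at ht; linarith
  set M := ⌊η * r⌋₊ with hM
  have hM1 : (M : ℝ) ≤ η * r := Nat.floor_le (by positivity)
  have hM2 : η * r / 2 ≤ M := by have := Nat.lt_floor_add_one (η * r); linarith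
  have hM0 : (0 : ℝ) < M := by linarith
  refine ⟨?_, fun k hk => ?_, ?_, fun k hk => ?_⟩
  · have h := kerT_mul (kerT_pow (kerT_mul (kerF_mem r M) (kerF_conj_mem r M)) (N + 1))
      (kerSin_mem r)
    have hB : ((N + 1 : ℕ) : ℝ) * (M + M) + 1 ≤ ε * r := by
      push_cast
      have h1 : η * (4 * (N + 1)) * r ≤ ε * r := mul_le_mul_of_nonneg_right hη2 hr0.le
      have h2 : ((N : ℝ) + 1) * M ≤ (N + 1) * (η * r) := by gcongr
      have h3 : 0 ≤ N * (η * r) := by positivity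
      nlinarith
    obtain ⟨S, b, hS, hb⟩ := kerT_repr (kerT_mono hB h)
    refine ⟨S, b, hS, fun k => ?_⟩
    rw [← hb k, Pi.mul_apply, Pi.pow_apply, Pi.mul_apply, Complex.mul_conj, Complex.normSq_eq_norm_sq,
      Complex.ofReal_mul, Complex.ofReal_pow]
  · have hk' := hcast k hk
    have h1 : 0 ≤ Real.sin (Real.pi * k / r) * k := by
      rcases le_total 0 (k : ℝ) with h | h
      · rw [abs_of_nonneg h] at hk'
        refine mul_nonneg (Real.sin_nonneg_of_nonneg_of_le_pi (by positivity) ?_) h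
        rw [div_le_iff₀ hr0]; gcongr
      · rw [abs_of_nonpos h] at hk'
        refine mul_nonneg_of_nonpos_of_nonpos (Real.sin_nonpos_of_nonpos_of_neg_pi_le ?_ ?_) h
        · exact div_nonpos_of_nonpos_of_nonneg (mul_nonpos_of_nonneg_of_nonpos hpi.le h) hr0.le
        · rw [le_div_iff₀ hr0]; nlinarith
    rw [mul_assoc, mul_assoc]
    positivity
  · have h1 := kerF_one hr0 (M := M) (by exact_mod_cast hM0) (by nlinarith)
    have h2 : 2 / Real.pi ≤ r / Real.pi * Real.sin (Real.pi * ((1 : ℤ) : ℝ) / r) := by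
      have h3 := Real.mul_le_sin (x := Real.pi * ((1 : ℤ) : ℝ) / r) (by push_cast; positivity)
        (by push_cast; rw [mul_one]; gcongr; nlinarith)
      calc 2 / Real.pi = r / Real.pi * (2 / Real.pi * (Real.pi * ((1 : ℤ) : ℝ) / r)) := by
            push_cast; field_simp
        _ ≤ _ := by gcongr
    gcongr
  · have hk' := hcast k hk
    by_cases h0 : k = 0
    · subst h0; simp; positivity
    have hk1 : (1 : ℝ) ≤ |(k : ℝ)| := by exact_mod_cast Int.one_le_abs h0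
    have h1 := kerF_le_one r M k
    have h2 : ‖kerF r M k‖ * |(k : ℝ)| ≤ 2 / η := by
      refine (kerF_decay hr0 M hk').trans ?_
      rw [div_le_div_iff₀ hM0 hη0]; linarith
    have h3 : |r / Real.pi * Real.sin (Real.pi * k / r)| ≤ |(k : ℝ)| := by
      rw [abs_mul, abs_of_pos (by positivity : 0 < r / Real.pi)]
      calc r / Real.pi * |Real.sin (Real.pi * k / r)| ≤ r / Real.pi * |Real.pi * k / r| :=
            mul_le_mul_of_nonneg_left Real.abs_sin_le_abs (by positivity)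
        _ = |(k : ℝ)| := by
          rw [abs_div, abs_mul, abs_of_pos hpi, abs_of_pos hr0]; field_simp
    have h4 : ‖kerF r M k‖ ^ 2 ≤ ‖kerF r M k‖ := by
      have := norm_nonneg (kerF r M k); nlinarith
    rw [abs_mul, abs_of_nonneg (by positivity)]
    calc (‖kerF r M k‖ ^ 2) ^ (N + 1) * |r / Real.pi * Real.sin (Real.pi * k / r)| *
          (|(k : ℝ)| + 1) ^ N
        ≤ ‖kerF r M k‖ ^ (N + 1) * |(k : ℝ)| * (2 * |(k : ℝ)|) ^ N := by gcongr; linarith
      _ = (‖kerF r M k‖ * |(k : ℝ)|) ^ (N + 1) * 2 ^ N := by ring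
      _ ≤ _ := by gcongr

end Pool.Agent.P.MP_53e370_gt
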