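import Pool.Agent.P.MP_ac4909_gt.JWMer

/-! The top colour `N` at a root of unity (`f (N+1) = 0`): fusion, crossing change, twist. -/

namespace Pool.Agent.P.MP_53e370_gt

open Pool.Agent.P.MP_ac4909_gt

variable {K : Type} [Field K] {R : Type} [Ring R] [Algebra K R] (T : TL K R) {N : ℕ}

theorem ff_comm (m n p q : ℕ) (h : p + m ≤ q) : T.f m p * T.f n q = T.f n q * T.f m p :=
  (T.loc_f m).far' (T.loc_f n) p q q h rfl

theorem f_cap_ff (hN : Adm T.a (N + 1)) (m n k p : ℕ) (h : n ≤ N) :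
    T.f n p * (T.capC m (p + n) * (T.f N p * T.f k (p + N))) =
      T.capC m (p + n) * (T.f N p * T.f k (p + N)) := by
  have h1 := (T.loc_f n).far' (T.loc_capC m) p (p + n) (p + n) le_rfl rfl
  have h2 : T.f n p * T.f N p = T.f N p :=
    T.f_mul_f' (j := 0) (hN.mono (Nat.le_succ N)) (by omega) p
  rw [← mul_assoc, h1, mul_assoc, ← mul_assoc (T.f n p), h2]

theorem fuse_zero (hN : Adm T.a (N + 1)) (hf : ∀ p, T.f (N + 1) p = 0) (p m : ℕ) :
    ∀ n, n + m = N →
      T.f (n + 1) p * (T.capC m (p + n) * (T.f N p * T.f (m + 1) (p + N))) = 0 := by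
  induction m with
  | zero =>
    intro n hn
    obtain rfl : n = N := hn
    rw [hf, zero_mul]
  | succ m ih =>
    intro n hn
    have h0 := ih (n + 1) (by omega)
    have hm : Adm T.a (m + 2) := hN.mono (by omega)
    have h1 : T.f (m + 1) (p + N) * T.f (m + 2) (p + N) = T.f (m + 2) (p + N) :=
      T.f_mul_f' (j := 0) hm (by omega) _
    set Z := T.capC m (p + (n + 1)) * (T.f N p * T.f (m + 2) (p + N)) with hZ
    have h2 : T.f (n + 2) p * Z = 0 := by
      rw [hZ, ← h1, ← mul_assoc (T.f N p), ← mul_assoc (T.capC _ _), ← mul_assoc, h0, zero_mul]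
    have h3 : T.C (p + (n + 1)) * Z = 0 := by
      have e1 : T.C (p + (n + 1)) * T.capC m (p + (n + 1)) =
          T.capC m (p + (n + 1)) * T.C (p + N + m) :=
        ((T.loc_capC m).far' T.loc_C (p + (n + 1)) (p + N + m) (p + (n + 1)) (by omega)
          (by omega)).symm
      rw [hZ, ← mul_assoc, e1, mul_assoc, ← mul_assoc (T.C _), ← T.jw_f_C, mul_assoc,
        T.C_mul_f hm le_rfl, mul_zero, mul_zero]
    have h4 : T.f (n + 1) p * Z = Z := f_cap_ff T hN m (n + 1) (m + 2) p (by omega)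
    have hC : T.C (p + (n + 1)) * T.f (n + 1) p = T.f (n + 1) p * T.C (p + (n + 1)) :=
      (T.jw_f_C (n + 1) p 0).symm
    have hz : T.C (p + (n + 1)) * T.U (p + n) = 1 := T.zig (p + n)
    have h5 := congrArg (T.C (p + (n + 1)) * ·) h2
    have hk : kap T.a n ≠ 0 := div_ne_zero (hN _ (by omega)) (hN _ (by omega))
    simp only [T.jw_f_two, sub_mul, mul_sub, smul_mul_assoc, mul_smul_comm, mul_assoc, h4, h3,
      mul_zero, zero_sub, neg_eq_zero] at h5
    rw [← mul_assoc, hC, mul_assoc, ← mul_assoc (T.C _), hz, one_mul] at h5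
    rw [TL.capC, mul_assoc]
    exact (smul_eq_zero_iff_right hk).1 h5

theorem fuse (hN : Adm T.a (N + 1)) (hf : ∀ p, T.f (N + 1) p = 0) (p m : ℕ) :
    ∀ n, n + m = N → T.f N p * T.f m (p + N) = (Dl T.a n / Dl T.a N) •
      (T.f N p * T.f m (p + N) * T.cupC m (p + n) *
        (T.capC m (p + n) * (T.f N p * T.f m (p + N)))) := by
  have hN' : Adm T.a N := hN.mono (Nat.le_succ N)
  induction m with
  | zero =>
    intro n hn
    obtain rfl : n = N := hn
    simp only [TL.f, TL.cupC, TL.capC, mul_one, one_mul]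
    rw [div_self (hN _ (by omega)), one_smul, T.f_idem hN']
  | succ m ih =>
    intro n hn
    have h0 := ih (n + 1) (by omega)
    have hm : Adm T.a (m + 1) := hN.mono (by omega)
    have h1 : T.f m (p + N) * T.f (m + 1) (p + N) = T.f (m + 1) (p + N) :=
      T.f_mul_f' (j := 0) hm (by omega) _
    have h2 : T.f (m + 1) (p + N) * T.f m (p + N) = T.f (m + 1) (p + N) :=
      T.f_mul_f (j := 0) hm (by omega) _
    have hc := ff_comm T N (m + 1) p (p + N) le_rfl
    obtain ⟨G, hG⟩ : ∃ G, G = T.f N p * T.f (m + 1) (p + N) := ⟨_, rfl⟩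
    have h3 : T.f (m + 1) (p + N) * (T.f N p * T.f m (p + N)) = G := by
      rw [← mul_assoc, ← hc, hG, mul_assoc, h2]
    have h4 : T.f N p * T.f m (p + N) * T.f (m + 1) (p + N) = G := by rw [mul_assoc, h1, hG]
    have h5 : G * T.f (m + 1) (p + N) = G := by rw [hG, mul_assoc, T.f_idem hm]
    have h6 : G = (Dl T.a (n + 1) / Dl T.a N) •
        (G * T.cupC m (p + (n + 1)) * (T.capC m (p + (n + 1)) * G)) := by
      have h7 := congrArg (fun x => T.f (m + 1) (p + N) * x * T.f (m + 1) (p + N)) h0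
      simp only [h3, h5, mul_smul_comm, smul_mul_assoc] at h7
      refine h7.trans (congrArg _ ?_)
      calc _ = T.f (m + 1) (p + N) * (T.f N p * T.f m (p + N)) * T.cupC m (p + (n + 1)) *
            (T.capC m (p + (n + 1)) * (T.f N p * T.f m (p + N) * T.f (m + 1) (p + N))) := by
            simp only [mul_assoc]
        _ = _ := by rw [h3, h4]
    have h7 : T.f (n + 1) p * (T.capC m (p + (n + 1)) * G) = T.capC m (p + (n + 1)) * G :=
      hG ▸ f_cap_ff T hN m (n + 1) (m + 1) p (by omega)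
    have h8 : T.f (n + 2) p * (T.capC m (p + (n + 1)) * G) = 0 :=
      hG ▸ fuse_zero T hN hf p m (n + 1) (by omega)
    have h9 : G * T.cupC m (p + (n + 1)) * T.f (n + 1) p = G * T.cupC m (p + (n + 1)) := by
      have e1 := (T.loc_f (n + 1)).far' (T.loc_cupC m) p (p + (n + 1)) (p + (n + 1)) le_rfl rfl
      have e2 : T.f N p * T.f (n + 1) p = T.f N p := T.f_mul_f (j := 0) hN' (by omega) p
      rw [mul_assoc, ← e1, ← mul_assoc, hG, hc, mul_assoc (T.f (m + 1) _), e2]
    rw [T.jw_f_two, sub_mul, h7, sub_eq_zero, smul_mul_assoc, mul_assoc _ (T.f (n + 1) p),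
      h7] at h8
    have e : Dl T.a n / Dl T.a N = Dl T.a (n + 1) / Dl T.a N * kap T.a n := by
      have := hN (n + 1) (by omega)
      rw [kap]
      field_simp
    rw [← hG, e, ← smul_smul, TL.cupC, TL.capC]
    refine h6.trans (congrArg _ ?_)
    rw [h8, mul_smul_comm]
    refine congrArg _ ?_
    calc _ = G * T.cupC m (p + (n + 1)) * T.f (n + 1) p * T.U (p + n) * T.C (p + n) *
          (T.capC m (p + (n + 1)) * G) := by simp only [mul_assoc]
      _ = _ := by rw [h9]; simp only [mul_assoc, add_assoc]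

theorem f_mul_sig {n j : ℕ} (h : Adm T.a n) (hj : j + 2 ≤ n) (s : Bool) (p : ℕ) :
    T.f n p * T.sig s (p + j) = zp T.a s • T.f n p := by
  rw [TL.sig, mul_add, mul_smul_comm, mul_smul_comm, mul_one, ← mul_assoc, T.f_mul_U h hj,
    zero_mul, smul_zero, add_zero]

theorem f_mul_crC {n : ℕ} (h : Adm T.a n) (s : Bool) (p k : ℕ) (hk : k + 1 ≤ n) :
    T.f n p * T.crC s 1 k p = zp T.a s ^ k • T.f n p := by
  induction k with
  | zero => rw [TL.crC, mul_one, pow_zero, one_smul]
  | succ k ih =>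
    rw [T.hexR, T.crC_one_one, ← mul_assoc, f_mul_sig T h hk, smul_mul_assoc, ih (by omega),
      smul_smul, pow_succ']

theorem sig_U (s : Bool) (p : ℕ) : T.sig s p * T.U p = (-zp T.a (!s) ^ 3) • T.U p := by
  have h := mul_inv_cancel₀ T.ha
  rw [TL.sig, add_mul, smul_mul_assoc, smul_mul_assoc, one_mul, mul_assoc, T.loop,
    ← Algebra.commutes, ← Algebra.smul_def, smul_smul, ← add_smul]
  congr 1
  cases s <;> simp only [zp, dlt, Bool.not_true, Bool.not_false, if_true, Bool.false_eq_true,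
    if_false]
  · linear_combination (-T.a⁻¹) * h
  · linear_combination (-T.a) * h

theorem X_f_U {M : ℕ} (h : Adm T.a (M + 1)) (s : Bool) (p : ℕ) :
    T.X s (M + 1) p * T.f (M + 1) p * T.U (p + M) =
      (-zp T.a (!s) ^ (M + 3)) • (T.f (M + 1) (p + 1) * T.U p) := by
  have h1 := (T.loc_f (M + 1)).natL s 1 p
  have h2 := T.cupSlC s M 1 p
  rw [T.cupC_one, T.cupC_one] at h2
  rw [← T.crC_one_right, h1, T.hexL, T.crC_one_one, mul_assoc, mul_assoc, sig_U, mul_smul_comm,
    h2, mul_smul_comm, ← mul_assoc, f_mul_crC T h _ _ _ le_rfl, smul_mul_assoc, smul_smul]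
  congr 1
  ring

theorem twist {M : ℕ} (h : Adm T.a (M + 1)) (s : Bool) (k : ℕ) : ∀ n p, n + k = M + 1 →
    T.crC s (M + 1) k p * T.f (M + 1) p * T.cupC k (p + n) =
      (-zp T.a (!s) ^ (M + 3)) ^ k • (T.f (M + 1) (p + k) * T.cupC k p) := by
  induction k with
  | zero => intro n p _; simp [TL.crC, TL.cupC]
  | succ k ih =>
    intro n p hn
    have h1 := T.loc_U.far' (T.loc_cupC k) p (p + n) (p + 1 + (n + 1)) (by omega) (by omega)
    have h2 := ih (n + 1) (p + 1) (by omega)
    calc _ = T.crC s (M + 1) k (p + 1) * (T.X s (M + 1) p * T.f (M + 1) p * T.U (p + M)) *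
          T.cupC k (p + n) := by
          rw [TL.crC, T.cupC_add, T.cupC_one, show p + n + k = p + M by omega]
          simp only [mul_assoc]
      _ = (-zp T.a (!s) ^ (M + 3)) • (T.crC s (M + 1) k (p + 1) * T.f (M + 1) (p + 1) *
          T.cupC k (p + 1 + (n + 1)) * T.U p) := by
          rw [X_f_U T h, mul_smul_comm, smul_mul_assoc, mul_assoc, mul_assoc, h1]
          simp only [mul_assoc]
      _ = _ := by
          rw [h2, smul_mul_assoc, smul_smul, ← pow_succ', TL.cupC, mul_assoc,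
            show p + 1 + k = p + (k + 1) by omega]

theorem X_change {M : ℕ} (h : Adm T.a (M + 1)) (hf : ∀ p, T.f (M + 2) p = 0)
    (ha : T.a ^ (2 * (M + 3)) = -1) (p : ℕ) :
    T.X true (M + 1) p * T.f (M + 1) p = -(T.X false (M + 1) p * T.f (M + 1) p) := by
  have h1 := hf p
  rw [T.jw_f_two, sub_eq_zero] at h1
  have h2 : ∀ s, T.X s (M + 1) p * T.f (M + 1) p = (kap T.a M * -zp T.a (!s) ^ (M + 3)) •
      (T.f (M + 1) (p + 1) * T.U p * T.C (p + M) * T.f (M + 1) p) := fun s => by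
    conv_lhs => rw [h1]
    rw [mul_smul_comm, ← mul_assoc, ← mul_assoc, ← mul_assoc, X_f_U T h, smul_mul_assoc,
      smul_mul_assoc, smul_smul]
  have h3 : T.a⁻¹ ^ (M + 3) = -T.a ^ (M + 3) := by
    rw [inv_pow]
    refine inv_eq_of_mul_eq_one_right ?_
    rw [mul_neg, ← pow_add, ← two_mul, ha, neg_neg]
  rw [h2, h2, ← neg_smul]
  congr 1
  simp only [zp, Bool.not_true, Bool.not_false, if_true, Bool.false_eq_true, if_false, h3]
  ring

theorem crC_change {M : ℕ} (h : Adm T.a (M + 1)) (hf : ∀ p, T.f (M + 2) p = 0)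
    (ha : T.a ^ (2 * (M + 3)) = -1) (m : ℕ) : ∀ p, T.crC true (M + 1) m p * T.f (M + 1) p =
      (-1 : K) ^ m • (T.crC false (M + 1) m p * T.f (M + 1) p) := by
  induction m with
  | zero => intro p; simp [TL.crC]
  | succ m ih =>
    intro p
    have h1 := (T.loc_f (M + 1)).natL false 1 p
    rw [T.crC_one_right] at h1
    rw [TL.crC, TL.crC, mul_assoc, X_change T h hf ha, h1, mul_neg, ← mul_assoc, ih,
      mul_assoc, h1, smul_mul_assoc, pow_succ, mul_neg_one, neg_smul, mul_assoc]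

theorem crC_change' {M : ℕ} (h : Adm T.a (M + 1)) (hf : ∀ p, T.f (M + 2) p = 0)
    (ha : T.a ^ (2 * (M + 3)) = -1) (m p : ℕ) : T.crC true m (M + 1) p * T.f (M + 1) (p + m) =
      (-1 : K) ^ m • (T.crC false m (M + 1) p * T.f (M + 1) (p + m)) := by
  have h1 := crC_change T h hf ha m p
  have h2 : T.crC false m (M + 1) p * T.crC true (M + 1) m p = 1 := T.r2C true (M + 1) m p
  have h3 : T.crC false (M + 1) m p * T.crC true m (M + 1) p = 1 := T.r2C true m (M + 1) p
  have h4 := (T.loc_f (M + 1)).natR true m p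
  have h5 := congrArg (fun x => T.crC false m (M + 1) p * x * T.crC true m (M + 1) p) h1
  simp only [mul_smul_comm, smul_mul_assoc] at h5
  rw [← mul_assoc, h2, one_mul, ← h4, mul_assoc, mul_assoc, ← h4, ← mul_assoc (T.crC false _ m p),
    h3, one_mul] at h5
  exact h5

end Pool.Agent.P.MP_53e370_gt
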