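import Pool.Agent.P.MP_53e370_gt.Fuse

/-! Side by side cups of the top colour absorb cups, caps and crossings of the top colour. -/

namespace Pool.Agent.P.MP_53e370_gt

open Pool.Agent.P.MP_ac4909_gt

variable {K : Type} [Field K] {R : Type} [Ring R] [Algebra K R]

/-- `N` is the top colour of the model `T`, at level `N + 2` -/
structure Top (T : TL K R) (N : ℕ) : Prop where
  pos : 1 ≤ N
  adm : Adm T.a (N + 1)
  zero : ∀ p, T.f (N + 1) p = 0
  root : T.a ^ (2 * (N + 2)) = -1
  dim : Dl T.a N = (-1) ^ N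

variable (T : TL K R) (N : ℕ)

/-- a cup of colour `N` -/
def ecup (p : ℕ) : R := T.f N p * T.cupC N p

/-- `k` cups of colour `N` side by side -/
def Gam : ℕ → ℕ → R
  | 0, _ => 1
  | k + 1, p => ecup T N p * Gam k p

/-- the twist of the top colour -/
def tw (s : Bool) : K := (-zp T.a (!s) ^ (N + 2)) ^ N

theorem loc_ecup : T.Loc 0 (N + N) (ecup T N) :=
  TL.Loc.mul ((T.loc_f N).padR N) (T.loc_cupC N)

theorem loc_Gam (k : ℕ) : T.Loc 0 (k * (N + N)) (Gam T N k) := by
  induction k with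
  | zero => exact (TL.Loc.one 0).cast rfl (by simp) fun _ => rfl
  | succ k ih =>
    exact TL.Loc.mul (((loc_ecup T N).padR (k * (N + N))).cast (by simp) (by ring) fun _ => rfl) ih

variable {T N}

theorem Top.adm' (h : Top T N) : Adm T.a N := h.adm.mono (Nat.le_succ N)

theorem Top.f_ecup (h : Top T N) (p : ℕ) : T.f N p * ecup T N p = ecup T N p := by
  rw [ecup, ← mul_assoc, T.f_idem h.adm']

theorem Top.f_ecup' (h : Top T N) (p : ℕ) : T.f N (p + N) * ecup T N p = ecup T N p := by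
  rw [ecup, T.rot_f h.adm' p, ← mul_assoc, T.f_idem h.adm']

theorem Top.nested (h : Top T N) (p : ℕ) :
    ecup T N (p + N) * ecup T N p = (-1 : K) ^ N • (ecup T N p * ecup T N p) := by
  have h1 := fuse T h.adm h.zero p N 0 (by omega)
  have h2 := (T.loc_f N).far' (loc_ecup T N) p (p + N) (p + N) le_rfl rfl
  have h3 : T.f N p * T.f N (p + N) * (ecup T N (p + N) * ecup T N p) =
      ecup T N (p + N) * ecup T N p := by
    rw [mul_assoc, ← mul_assoc (T.f N (p + N)), h.f_ecup, ← mul_assoc, h2, mul_assoc, h.f_ecup]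
  have h4 : T.f N p * T.f N (p + N) * T.cupC N p = ecup T N p := by
    rw [mul_assoc, ← T.rot_f h.adm' p, ← mul_assoc, T.f_idem h.adm', ecup]
  have h5 : T.capC N p * ecup T N (p + N) = T.f N p := by
    have e1 := (T.rot_f h.adm').cap (T.loc_f N) (T.loc_f N) p
    have e2 := (T.loc_f N).far' (T.loc_cupC N) p (p + N) (p + N) le_rfl rfl
    rw [ecup, ← mul_assoc, e1, mul_assoc, e2, ← mul_assoc, T.zagC, one_mul]
  have h6 : Dl T.a 0 / Dl T.a N = (-1) ^ N := by
    rw [h.dim, Dl, one_div, ← inv_pow, inv_neg_one]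
  rw [← h3, h1, h6, smul_mul_assoc, add_zero, h4, mul_assoc, mul_assoc (T.capC N p), h3,
    ← mul_assoc (T.capC N p), h5, h.f_ecup]

theorem Top.ecup_Gam (h : Top T N) (p k : ℕ) : ∀ l, l ≤ 2 * k →
    ecup T N (p + l * N) * Gam T N k p = (-1 : K) ^ (N * l) • Gam T N (k + 1) p := by
  induction k with
  | zero =>
    intro l hl
    obtain rfl : l = 0 := by omega
    simp [Gam]
  | succ k ih =>
    intro l hl
    match l, hl with
    | 0, _ => simp [Gam]
    | 1, _ =>
      rw [one_mul, mul_one, Gam, ← mul_assoc, h.nested, smul_mul_assoc, mul_assoc]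
      rfl
    | l + 2, hl =>
      have h1 := (loc_ecup T N).far' (loc_ecup T N) p (p + l * N) (p + (l + 2) * N) (by omega)
        (by ring)
      rw [Gam, ← mul_assoc, ← h1, mul_assoc, ih l (by omega), mul_smul_comm, mul_add, pow_add,
        mul_comm N 2, pow_mul _ 2, neg_one_sq, one_pow, mul_one]
      rfl

theorem Top.Gam_eq (h : Top T N) (p k l : ℕ) (hl : l ≤ 2 * k) :
    Gam T N (k + 1) p = (-1 : K) ^ (N * l) • (ecup T N (p + l * N) * Gam T N k p) := by
  rw [h.ecup_Gam p k l hl, smul_smul, ← mul_pow, neg_mul_neg, one_mul, one_pow, one_smul]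

theorem Top.cap_Gam (h : Top T N) (p k l : ℕ) (hl : l ≤ 2 * k) :
    T.capC N (p + l * N) * T.f N (p + l * N) * Gam T N (k + 1) p =
      (-1 : K) ^ (N * (l + 1)) • Gam T N k p := by
  rw [h.Gam_eq p k l hl, mul_smul_comm, ← mul_assoc, mul_assoc (T.capC _ _), h.f_ecup, ecup,
    ← mul_assoc, T.f_closure h.adm', ← Algebra.smul_def, smul_smul, h.dim, ← pow_add, mul_add,
    mul_one]

theorem Top.cr_Gam (h : Top T N) (s : Bool) (p k l : ℕ) (hl : l ≤ 2 * k) :
    T.crC s N N (p + l * N) * Gam T N (k + 1) p = tw T N s • Gam T N (k + 1) p := by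
  obtain ⟨M, rfl⟩ : ∃ M, N = M + 1 := ⟨N - 1, by have := h.pos; omega⟩
  have h1 := twist T h.adm' s (M + 1) 0 (p + l * (M + 1)) (by omega)
  rw [add_zero, ← T.rot_f h.adm'] at h1
  rw [h.Gam_eq p k l hl, mul_smul_comm, ← mul_assoc, ecup, ← mul_assoc, h1, smul_mul_assoc,
    smul_comm]
  rfl

theorem Top.f_Gam (h : Top T N) (p k l : ℕ) (hl : l < 2 * k) :
    T.f N (p + l * N) * Gam T N k p = Gam T N k p := by
  obtain ⟨k, rfl⟩ : ∃ k', k = k' + 1 := ⟨k - 1, by omega⟩
  rcases Nat.lt_or_ge (2 * k) l with h1 | h1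
  · obtain rfl : l = 2 * k + 1 := by omega
    rw [h.Gam_eq p k (2 * k) le_rfl, mul_smul_comm, ← mul_assoc (T.f N _),
      show p + (2 * k + 1) * N = p + 2 * k * N + N by ring, h.f_ecup']
  · rw [h.Gam_eq p k l h1, mul_smul_comm, ← mul_assoc, h.f_ecup]

theorem Top.change (h : Top T N) (m p : ℕ) :
    T.crC true N m p * T.f N p = (-1 : K) ^ m • (T.crC false N m p * T.f N p) := by
  obtain ⟨M, rfl⟩ : ∃ M, N = M + 1 := ⟨N - 1, by have := h.pos; omega⟩
  exact crC_change T h.adm' h.zero h.root m p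

theorem Top.change' (h : Top T N) (m p : ℕ) :
    T.crC true m N p * T.f N (p + m) = (-1 : K) ^ m • (T.crC false m N p * T.f N (p + m)) := by
  obtain ⟨M, rfl⟩ : ∃ M, N = M + 1 := ⟨N - 1, by have := h.pos; omega⟩
  exact crC_change' T h.adm' h.zero h.root m p

theorem Top.tw_sq (h : Top T N) (s : Bool) : tw T N s * tw T N s = (-1) ^ N := by
  have h1 : zp T.a (!s) ^ (2 * (N + 2)) = -1 := by
    cases s
    · exact h.root
    · simp only [zp, Bool.not_true, Bool.false_eq_true, if_false]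
      rw [inv_pow, h.root, inv_neg_one]
  rw [tw, ← mul_pow, neg_mul_neg, ← pow_add, ← two_mul, h1]

theorem Top.tw_mul (h : Top T N) : tw T N true * tw T N false = 1 := by
  have h1 := h.tw_sq true
  have h2 : tw T N false = (-1) ^ N * tw T N true := by
    have h3 : T.a⁻¹ ^ (N + 2) = -T.a ^ (N + 2) := by
      rw [inv_pow]
      refine inv_eq_of_mul_eq_one_right ?_
      rw [mul_neg, ← pow_add, ← two_mul, h.root, neg_neg]
    simp only [tw, zp, Bool.not_true, Bool.not_false, if_true, Bool.false_eq_true, if_false, h3,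
      neg_neg]
    rw [neg_pow]
  rw [h2, mul_left_comm, h1, ← mul_pow, neg_mul_neg, one_mul, one_pow]

end Pool.Agent.P.MP_53e370_gt
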