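import Pool.Agent.P.MP_ac4909_gt.Lambda
import Pool.Agent.P.MP_53e370_gt.Root

/-! The evaluation map from the skein module to germs of sequences. -/

namespace Pool.Agent.P.MP_53e370_gt

open Filter Pool.Agent.P.MP_ac4909_gt

variable [F : Fam] {ι : Type} [DecidableEq ι] {L : List (Sl (Arc ι))}

theorem lambda_zp (s : Bool) : theta (if s then RatFunc.X else RatFunc.X⁻¹) =
    ((fun t => zp (aa t) s : ℕ → ℂ) : Germ atTop ℂ) := by
  cases s
  · simpa [zp] using theta_X_zpow (-1)
  · simpa [zp] using theta_X_zpow 1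

theorem lambda_dlt : theta (-RatFunc.X ^ 2 - RatFunc.X⁻¹ ^ 2) =
    ((fun t => dlt (aa t) : ℕ → ℂ) : Germ atTop ℂ) := by
  have h1 := lambda_zp true
  have h2 := lambda_zp false
  simp only [if_true, Bool.false_eq_true, if_false] at h1 h2
  rw [map_sub, map_neg, map_pow, map_pow, h1, h2]
  rfl

/-- the evaluation map of the skein module -/
theorem exists_Lambda (lam : ℕ → List (Sl (Option (Arc ι))) → ℂ)
    (h : ∀ᶠ t in atTop, Kills (aa t) (lam t) L) :
    ∃ Λ : SkeinModule L →+ Germ (atTop : Filter ℕ) ℂ, (∀ c x, Λ (c • x) = theta c * Λ x) ∧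
      ∀ D : Diagram L, Λ (Submodule.Quotient.mk (Finsupp.single D 1)) =
        ((fun t => lam t D.1 : ℕ → ℂ) : Germ atTop ℂ) := by
  obtain ⟨Λ, hΛ⟩ : ∃ Λ : (Diagram L →₀ RatFunc ℚ) →+ Germ (atTop : Filter ℕ) ℂ, ∀ E c,
      Λ (Finsupp.single E c) = theta c * ((fun t => lam t E.1 : ℕ → ℂ) : Germ atTop ℂ) :=
    ⟨Finsupp.liftAddHom fun E => (AddMonoidHom.mulRight _).comp theta.toAddMonoidHom,
      fun E c => Finsupp.liftAddHom_apply_single _ _ _⟩
  have h1 : ∀ c x, Λ (c • x) = theta c * Λ x := by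
    intro c x
    induction x using Finsupp.induction_linear with
    | zero => simp
    | add x y hx hy => rw [smul_add, map_add, map_add, hx, hy, mul_add]
    | single E a => rw [Finsupp.smul_single, hΛ, hΛ, smul_eq_mul, map_mul, mul_assoc]
  have h2 : ∀ x ∈ Submodule.span (RatFunc ℚ) {x | Rel L x}, Λ x = 0 := by
    intro x hx
    induction hx using Submodule.span_induction with
    | zero => exact map_zero _
    | add x y _ _ hx hy => rw [map_add, hx, hy, add_zero]
    | smul c x _ hx => rw [h1, hx, mul_zero]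
    | mem x hx =>
      cases hx with
      | isotopy E E' w₁ u u' w₂ hm e1 e2 =>
        rw [map_sub, hΛ, hΛ, map_one, one_mul, one_mul, sub_eq_zero, Germ.coe_eq]
        filter_upwards [h] with t ht
        rw [e1, e2]
        exact ht.isotopy _ _ _ _ hm (e1 ▸ E.2.1)
      | skein E E₀ E₁ w₁ w₂ l r s e1 e2 e3 =>
        have e4 : (if s then RatFunc.X⁻¹ else RatFunc.X : RatFunc ℚ) =
            if (!s) then RatFunc.X else RatFunc.X⁻¹ := by cases s <;> rfl
        rw [map_sub, map_sub, hΛ, hΛ, hΛ, map_one, one_mul, sub_sub, sub_eq_zero, e4, lambda_zp,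
          lambda_zp, ← Germ.coe_mul, ← Germ.coe_mul, ← Germ.coe_add, Germ.coe_eq]
        filter_upwards [h] with t ht
        rw [e1, e2, e3]
        exact ht.skein _ _ _ _ _
      | loop E E₀ w₁ w₂ l r e1 e2 =>
        rw [map_sub, hΛ, hΛ, map_one, one_mul, sub_eq_zero, lambda_dlt, ← Germ.coe_mul, Germ.coe_eq]
        filter_upwards [h] with t ht
        rw [e1, e2]
        exact ht.loop _ _ _ _
      | handleSlide E E' w₁ w₂ l r a hr e1 e2 =>
        rw [map_sub, hΛ, hΛ, map_one, one_mul, one_mul, sub_eq_zero, Germ.coe_eq]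
        filter_upwards [h] with t ht
        rw [e2]
        exact ht.slide E _ _ _ _ _ hr e1
  refine ⟨QuotientAddGroup.lift
    (Submodule.span (RatFunc ℚ) {x | Rel L x}).toAddSubgroup Λ h2, fun c x => ?_, fun D => ?_⟩
  · obtain ⟨y, rfl⟩ := Submodule.Quotient.mk_surjective _ x
    exact h1 c y
  · refine (hΛ D 1).trans ?_
    rw [map_one, one_mul]

end Pool.Agent.P.MP_53e370_gt
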