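import Pool.Agent.P.MP_ac4909_gt.Main
import Pool.Agent.P.MP_53e370_gt.FD
import Pool.Agent.P.MP_53e370_gt.Fold
import Pool.Agent.P.MP_53e370_gt.Fourier
import Pool.Agent.P.MP_53e370_gt.Lambda

/-! For every family of levels some meridian skein has invariants that do not vanish eventually. -/

namespace Pool.Agent.P.MP_53e370_gt

open Filter Topology Pool.Agent.P.MP_ac4909_gt

variable [F : Fam] {ι : Type} [Fintype ι] [DecidableEq ι]

/-- the invariant of the skein with `j i` meridians of component `i`, at level `t` -/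
noncomputable def Zm (L : List (Sl (Arc ι))) (t : ℕ) (j : ι → ℕ) : ℂ :=
  ∑ m ∈ Fintype.piFinset fun _ : ι => Finset.range (rr t - 1),
    (∏ i, Dl (aa t) (m i)) * ((∏ i, mu (aa t) (m i) ^ j i) *
      lev (aa t) (aa_ne t) (JP L fun i => (m i : ℤ) + 1))

theorem exists_Zm_ne {L : List (Sl (Arc ι))} (hL : IsFramedLink L)
    (hper : ∀ t k i, lev (aa t) (aa_ne t) (JP L (k + Pi.single i (2 * (rr t : ℤ)))) =
      lev (aa t) (aa_ne t) (JP L k))
    (hbd : ∀ t, ∀ m : ι → ℕ, (∀ i, m i ≤ rr t - 1) →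
      ‖lev (aa t) (aa_ne t) (JP L fun i => (m i : ℤ) + 1)‖ ≤ (∏ i, ((m i : ℝ) + 1)) ^ L.length) :
    ∃ j, ¬∀ᶠ t in atTop, Zm L t j = 0 := by
  by_contra hzero
  push Not at hzero
  set J : ℕ → (ι → ℤ) → ℂ := fun t k => lev (aa t) (aa_ne t) (JP L k) with hJ
  have hodd : ∀ t k i, J t (Function.update k i (-k i)) = -J t k := by
    intro t k i; simp only [hJ, JP_neg, map_neg]
  have hperJ : ∀ᶠ t in atTop, ∀ k i, J t (k + Pi.single i (2 * (rr t : ℤ))) = J t k :=
    Eventually.of_forall hper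
  set G : ℕ → (ι → ℤ) → ℂ := fun t k => lev (aa t) (aa_ne t) (GP L k) with hG
  have hGJ : G = fun t k => (∏ i, (-1 : ℂ) ^ (k i - 1)) * J t k := by
    funext t k; simp only [hG, hJ, lev_GP]
  have hperG : ∀ᶠ t in atTop, ∀ k i, G t (k + Pi.single i (2 * (rr t : ℤ))) = G t k := by
    filter_upwards [hperJ] with t ht k i
    rw [hGJ]
    simp only [ht]
    congr 1
    refine Finset.prod_congr rfl fun j _ => ?_
    by_cases hj : j = i
    · subst hj
      simp only [Pi.add_apply, Pi.single_eq_same]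
      rw [show k j + 2 * (rr t : ℤ) - 1 = (k j - 1) + 2 * (rr t : ℤ) by ring, zpow_add₀ (by norm_num),
        zpow_mul]
      norm_num
    · simp [Pi.single_eq_of_ne hj]
  have hpt : ∀ n, ∀ᶠ t in atTop, Psi G t n = 0 := by
    rw [hGJ]
    exact Psi_eventually_zero J hodd hperJ hzero
  have hhol : HolG (Psi G) := by
    refine holG_Psi (GP L) (HolF.sq ?_) hperG
    have h₁ : HolF uA fun k : ι → ℤ => ∏ i, (-1 : RatFunc ℚ) ^ (k i - 1) :=
      HolF.finset_prod uA_nontorsion _ fun i _ =>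
        holF_sign uA_nontorsion ((isAff_coord i).sub (isAff_const 1))
    refine (h₁.mul uA_nontorsion (holF_JP uA_nontorsion hL)).congr fun k => ?_
    rw [lev_GP]; rfl
  obtain ⟨ε, hε, hvan⟩ := HolG.vanish _ ι rfl _ hhol hpt
  refine fourier_contra G L.length ε hε hperG ?_ ?_ hvan
  · refine Eventually.of_forall fun t k hk => ?_
    have hnorm : ∀ k, ‖G t k‖ = ‖J t k‖ := by
      intro k; rw [hGJ]; simp [norm_prod, norm_zpow]
    rw [hnorm]
    have habs : ∀ s : Finset ι, ‖J t fun i => if i ∈ s then |k i| else k i‖ = ‖J t k‖ := by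
      intro s
      induction s using Finset.induction_on with
      | empty => simp
      | insert j s hj ih =>
        rw [← ih]
        rcases abs_choice (k j) with h | h
        · congr 2; funext i
          by_cases hi : i = j
          · subst hi; simp [hj, h]
          · simp [hi]
        · rw [← norm_neg (J t fun i => if i ∈ s then |k i| else k i), ← hodd _ _ j]
          congr 2; funext i
          by_cases hi : i = j
          · subst hi; simp [hj, h]
          · simp [hi]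
    rw [← habs Finset.univ]
    simp only [Finset.mem_univ, if_true]
    by_cases h0 : ∃ i, k i = 0
    · obtain ⟨i, hi⟩ := h0
      have := hodd t (fun i => |k i|) i
      simp only [hi, abs_zero, neg_zero] at this
      rw [Function.update_eq_self_iff.2 (by simp [hi])] at this
      rw [self_eq_neg.1 this, norm_zero]
      positivity
    · push Not at h0
      have hm : (fun i => |k i|) = fun i => (((k i).natAbs - 1 : ℕ) : ℤ) + 1 := by
        funext i; have := h0 i; rw [Int.abs_eq_natAbs]; omega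
      rw [hm]
      refine (hbd t (fun i => (k i).natAbs - 1) fun i => ?_).trans ?_
      · have h₁ := hk i
        rw [Int.abs_eq_natAbs] at h₁
        have : (k i).natAbs ≤ rr t := by exact_mod_cast h₁
        omega
      · refine pow_le_pow_left₀ (Finset.prod_nonneg fun i _ => by positivity)
          (Finset.prod_le_prod (fun i _ => by positivity) fun i _ => ?_) _
        have h₁ : (((k i).natAbs - 1 : ℕ) : ℤ) ≤ |k i| := by rw [Int.abs_eq_natAbs]; omega
        have h₂ : (((k i).natAbs - 1 : ℕ) : ℝ) ≤ |(k i : ℝ)| := by exact_mod_cast h₁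
        linarith
  · intro k
    have := tendsto_lev aa_ne (by simp : (-1 : ℂ) ≠ 0) tendsto_aa (GP L k)
    rw [lev_GP, lev_JP_neg_one hL, ← Finset.prod_mul_distrib] at this
    have e : ∏ i, (k i : ℂ) = ∏ i, (-1 : ℂ) ^ (k i - 1) * ((-1 : ℂ) ^ (k i - 1) * (k i : ℂ)) :=
      Finset.prod_congr rfl fun i _ => by rw [← mul_assoc, ← mul_zpow]; simp
    rw [e]
    exact this

/-- everything the unitary model gives at level `t` -/
theorem level_facts {L : List (Sl (Arc ι))} (hL : IsFramedLink L) (t : ℕ)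
    (Dj : (ι → ℕ) → Diagram L)
    (hDj : ∀ j, ∀ (K : Type) [Field K] (R : Type) [Ring R] [Algebra K R] (T : TL K R)
      (m : ι → ℕ), (∀ i', Adm T.a (m i')) →
      T.ev (T.jw m) (Dj j).1 = (∏ i, mu T.a (m i) ^ j i) • T.ev (T.jcA m 0 fun _ => true) L) :
    ∃ lam : List (Sl (Option (Arc ι))) → ℂ, Kills (aa t) lam L ∧
      (∀ j, lam (Dj j).1 = Zm L t j) ∧
      (∀ k i, lev (aa t) (aa_ne t) (JP L (k + Pi.single i (2 * (rr t : ℤ)))) =
        lev (aa t) (aa_ne t) (JP L k)) ∧
      ∀ m : ι → ℕ, (∀ i, m i ≤ rr t - 1) →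
        ‖lev (aa t) (aa_ne t) (JP L fun i => (m i : ℤ) + 1)‖ ≤ (∏ i, ((m i : ℝ) + 1)) ^ L.length := by
  obtain ⟨M⟩ := exists_uModel t
  have h4 := rr_four t
  obtain ⟨N, hN⟩ : ∃ N, rr t - 1 = N + 1 := ⟨rr t - 2, by omega⟩
  have hadm : Adm M.T.a (N + 1) := by rw [M.a_eq, ← hN]; exact adm_aa t
  have hf : ∀ p, M.T.f (N + 1) p = 0 := fun p =>
    M.f_eq_zero (norm_aa t) (by rw [← hN]; exact adm_aa t)
      (by rw [← hN]; exact Dl_aa t) p
  obtain ⟨φ, hφ⟩ : ∃ φ : Module.End ℂ M.V →ₗ[ℂ] ℂ, φ 1 = 1 := by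
    obtain ⟨ψ, hψ⟩ := Module.Projective.exists_dual_ne_zero ℂ (one_ne_zero : (1 : Module.End ℂ M.V) ≠ 0)
    exact ⟨(ψ 1)⁻¹ • ψ, by simp [hψ]⟩
  have hlev : ∀ c, lev M.T.a M.T.ha c = lev (aa t) (aa_ne t) c := by
    intro c; have := M.a_eq; congr 1; simp only [this]
  have hmem : ∀ m ∈ Fintype.piFinset fun _ : ι => Finset.range (N + 1), ∀ i, Adm M.T.a (m i) := by
    intro m hm i
    have := Finset.mem_range.1 (Fintype.mem_piFinset.1 hm i)
    exact hadm.mono (by omega)
  refine ⟨fun D => φ (M.T.om N D), ⟨?_, ?_, ?_, ?_⟩, ?_, ?_, ?_⟩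
  · intro w₁ u u' w₂ h hw
    congr 1
    refine Finset.sum_congr rfl fun m hm => ?_
    rw [(M.T.good_jc _ _ (hmem m hm)).ev_move h hw]
  · intro w₁ w₂ l r s
    rw [show zp (aa t) s = zp M.T.a s by rw [M.a_eq],
      show zp (aa t) (!s) = zp M.T.a (!s) by rw [M.a_eq], ← smul_eq_mul, ← smul_eq_mul,
      ← map_smul, ← map_smul, ← map_add]
    congr 1
    simp only [TL.om, Finset.smul_sum, ← Finset.sum_add_distrib]
    refine Finset.sum_congr rfl fun m _ => ?_
    simp only [TL.jw, TL.jc]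
    rw [TL.ev_skein, smul_add, smul_comm, smul_comm (zp M.T.a !s)]
  · intro w₁ w₂ l r
    rw [show dlt (aa t) = dlt M.T.a by rw [M.a_eq], ← smul_eq_mul, ← map_smul]
    congr 1
    simp only [TL.om, Finset.smul_sum]
    refine Finset.sum_congr rfl fun m _ => ?_
    simp only [TL.jw, TL.jc]
    rw [TL.ev_loop, smul_comm]
  · intro D w₁ w₂ l r x hρ hD
    rw [M.T.om_slide hL N hadm hf D hρ hD]
  · intro j
    simp only [TL.om, map_sum, Zm, hN]
    refine Finset.sum_congr rfl fun m hm => ?_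
    rw [hDj j ℂ _ M.T m (hmem m hm), M.T.ev_eq_JP hL m (hmem m hm), hlev, map_smul, map_smul,
      Algebra.algebraMap_eq_smul_one, map_smul, hφ, M.a_eq]
    simp
  · intro k i
    have := M.T.JP_period hL (N + 1) hadm hf k i
    rw [hlev, hlev] at this
    have h2 : (2 * (((N + 1 : ℕ) : ℤ) + 1)) = 2 * (rr t : ℤ) := by
      have : (N + 1 + 1 : ℕ) = rr t := by omega
      exact_mod_cast congrArg (fun x : ℕ => 2 * x) this
    rwa [h2] at this
  · intro m hm
    have hm' : ∀ i, Adm M.T.a (m i) := fun i => hadm.mono (by have := hm i; omega)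
    refine M.norm_le (norm_aa t) m (fun i => M.a_eq ▸ hm' i) L _ ?_
    rw [M.T.ev_eq_JP hL m hm', hlev]

end Pool.Agent.P.MP_53e370_gt
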