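import Pool.Agent.P.MP_53e370_gt.Sym
import Pool.Agent.P.MP_53e370_gt.NonVan

/-! Assembly: even and odd levels detect two independent skeins. -/

namespace Pool.Agent.P.MP_53e370_gt

open Filter Pool.Agent.P.MP_ac4909_gt

variable {ι : Type} [Fintype ι] [DecidableEq ι]

theorem Zm_eq_zero [Fam] {L : List (Sl (Arc ι))} (hL : IsFramedLink L) (v : Finset ι)
    (h1 : ∀ k, Even (∑ i ∈ v, lk L i k)) (h2 : (∑ i ∈ v, ∑ k ∈ v, lk L i k) % 4 = 2)
    (t : ℕ) (j : ι → ℕ) (hj : Odd (rr t + ∑ i ∈ v, j i)) : Zm L t j = 0 := by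
  obtain ⟨M⟩ := exists_uModel t
  have h4 := rr_four t
  obtain ⟨N, hN⟩ : ∃ N, rr t = N + 2 := ⟨rr t - 2, by omega⟩
  have hN' : rr t - 1 = N + 1 := by omega
  have hr : aa t ^ (2 * (N + 2)) = -1 := hN ▸ aa_two_r t
  have h5 : aa t ^ 2 - (aa t)⁻¹ ^ 2 ≠ 0 := fun h => by
    have h3 : aa t ^ 4 = 1 := by
      rw [show 4 = 2 + 2 from rfl, pow_add]
      nth_rewrite 2 [sub_eq_zero.1 h]
      rw [← mul_pow, mul_inv_cancel₀ (aa_ne t), one_pow]
    have := Nat.le_of_dvd (by omega) ((aa_prim t).dvd_of_pow_eq_one _ h3)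
    omega
  have hT : Top M.T N := by
    refine ⟨by omega, ?_, fun p => M.f_eq_zero (norm_aa t) (hN' ▸ adm_aa t) (hN' ▸ Dl_aa t) p,
      ?_, ?_⟩ <;> rw [M.a_eq]
    · exact hN' ▸ adm_aa t
    · exact hr
    · simpa [Dl] using Dl_refl (aa_ne t) h5 hr (Nat.zero_le N)
  have hlev : ∀ c, lev M.T.a M.T.ha c = lev (aa t) (aa_ne t) c := by
    intro c
    have := M.a_eq
    congr 1
    simp only [this]
  have key : Zm L t j = -Zm L t j := by
    rw [Zm, hN', ← Finset.sum_neg_distrib]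
    have hmem : ∀ m ∈ Fintype.piFinset fun _ : ι => Finset.range (N + 1), ∀ i, m i ≤ N :=
      fun m hm i => Nat.lt_succ_iff.1 (Finset.mem_range.1 (Fintype.mem_piFinset.1 hm i))
    have hσ : ∀ m ∈ Fintype.piFinset fun _ : ι => Finset.range (N + 1),
        (fun i => if i ∈ v then N - m i else m i) ∈
          Fintype.piFinset fun _ : ι => Finset.range (N + 1) := fun m hm =>
      Fintype.mem_piFinset.2 fun i => Finset.mem_range.2 (by
        have := hmem m hm i
        split_ifs <;> omega)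
    have hσσ : ∀ m ∈ Fintype.piFinset fun _ : ι => Finset.range (N + 1),
        (fun i => if i ∈ v then N - (if i ∈ v then N - m i else m i) else
          (if i ∈ v then N - m i else m i)) = m := fun m hm => funext fun i => by
      have := hmem m hm i
      split_ifs <;> omega
    symm
    refine Finset.sum_nbij' (fun m i => if i ∈ v then N - m i else m i)
      (fun m i => if i ∈ v then N - m i else m i) hσ hσ hσσ hσσ fun m hm => ?_
    have e1 := JP_sym v hT hL h1 h2 m (hmem m hm)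
    rw [hlev, hlev] at e1
    have e2 : ∏ i, Dl (aa t) (if i ∈ v then N - m i else m i) =
        (-1) ^ (N * v.card) * ∏ i, Dl (aa t) (m i) := by
      rw [pow_mul, ← Finset.prod_const, ← Finset.prod_ite_mem_eq v, ← Finset.prod_mul_distrib]
      refine Finset.prod_congr rfl fun i _ => ?_
      split_ifs
      · exact Dl_refl (aa_ne t) h5 hr (hmem m hm i)
      · rw [one_mul]
    have e3 : ∏ i, mu (aa t) (if i ∈ v then N - m i else m i) ^ j i =
        (-1) ^ (∑ i ∈ v, j i) * ∏ i, mu (aa t) (m i) ^ j i := by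
      rw [← Finset.prod_pow_eq_pow_sum, ← Finset.prod_ite_mem_eq v, ← Finset.prod_mul_distrib]
      refine Finset.prod_congr rfl fun i _ => ?_
      split_ifs
      · rw [mu_refl hr (hmem m hm i), neg_pow]
      · rw [one_mul]
    have e4 : (-1 : ℂ) ^ (N * v.card) * (-1) ^ (∑ i ∈ v, j i) * (-1) ^ (N * (v.card + 1)) = -1 := by
      rw [← pow_add, ← pow_add]
      refine Odd.neg_one_pow ?_
      rw [hN, Nat.odd_iff] at hj
      rw [Nat.odd_iff, mul_add]
      omega
    rw [e1, e2, e3]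
    linear_combination (-(∏ i, Dl (aa t) (m i)) * (∏ i, mu (aa t) (m i) ^ j i) *
      lev (aa t) (aa_ne t) (JP L fun i => (m i : ℤ) + 1)) * e4
  exact self_eq_neg.1 key

/-- an evaluation map that sees exactly one parity class of meridian skeins -/
theorem exists_eval [Fam] {L : List (Sl (Arc ι))} (hL : IsFramedLink L) (v : Finset ι)
    (h1 : ∀ k, Even (∑ i ∈ v, lk L i k)) (h2 : (∑ i ∈ v, ∑ k ∈ v, lk L i k) % 4 = 2)
    (Dj : (ι → ℕ) → Diagram L)
    (hDj : ∀ j, ∀ (K : Type) [Field K] (R : Type) [Ring R] [Algebra K R] (T : TL K R)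
      (m : ι → ℕ), (∀ i', Adm T.a (m i')) →
      T.ev (T.jw m) (Dj j).1 = (∏ i, mu T.a (m i) ^ j i) • T.ev (T.jcA m 0 fun _ => true) L)
    (e : ℕ) (he : ∀ t, rr t % 2 = e % 2) :
    ∃ (θ : RatFunc ℚ →+* Germ (atTop : Filter ℕ) ℂ) (Λ : SkeinModule L →+ Germ (atTop : Filter ℕ) ℂ),
      (∀ c x, Λ (c • x) = θ c * Λ x) ∧
      (∃ j, Λ (Submodule.Quotient.mk (Finsupp.single (Dj j) 1)) ≠ 0) ∧
      ∀ j, Odd (e + ∑ i ∈ v, j i) → Λ (Submodule.Quotient.mk (Finsupp.single (Dj j) 1)) = 0 := by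
  choose lam a1 a2 a3 a4 using fun t => level_facts hL t Dj hDj
  obtain ⟨Λ, b1, b2⟩ := exists_Lambda lam (Eventually.of_forall a1)
  obtain ⟨j, hj⟩ := exists_Zm_ne hL a3 a4
  refine ⟨theta, Λ, b1, ⟨j, fun h => hj ?_⟩, fun j hj => ?_⟩
  · rw [b2] at h
    exact (Germ.coe_eq.1 h).mono fun t ht => (a2 t j).symm.trans ht
  · rw [b2]
    refine Germ.coe_eq.2 (Eventually.of_forall fun t => (a2 t j).trans ?_)
    refine Zm_eq_zero hL v h1 h2 t j ?_
    have := he t
    rw [Nat.odd_iff] at hj ⊢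
    omega

/-- the levels `p ^ (t + 2)` -/
@[reducible] def famPow (p : ℕ) (hp : 2 ≤ p) (h : ∀ t, p ^ (t + 2) ≤ Nat.totient (4 * p ^ (t + 2))) :
    Fam where
  r t := p ^ (t + 2)
  tend := (tendsto_pow_atTop_atTop_of_one_lt (by omega : 1 < p)).comp (tendsto_add_atTop_nat 2)
  four t := by
    calc 4 = 2 ^ 2 := rfl
      _ ≤ p ^ 2 := Nat.pow_le_pow_left hp 2
      _ ≤ p ^ (t + 2) := Nat.pow_le_pow_right (by omega) (by omega)
  tot := h

theorem tot_two (t : ℕ) : 2 ^ (t + 2) ≤ Nat.totient (4 * 2 ^ (t + 2)) := by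
  rw [show 4 * 2 ^ (t + 2) = 2 ^ (t + 3 + 1) by ring, Nat.totient_prime_pow_succ Nat.prime_two,
    pow_succ 2 (t + 2)]
  omega

theorem tot_three (t : ℕ) : 3 ^ (t + 2) ≤ Nat.totient (4 * 3 ^ (t + 2)) := by
  rw [Nat.totient_mul (Nat.Coprime.pow_right _ (by norm_num)),
    Nat.totient_prime_pow_succ Nat.prime_three, show Nat.totient 4 = 2 by decide, pow_succ 3 (t + 1)]
  omega

theorem two_le_rank {L : List (Sl (Arc ι))} (hL : IsFramedLink L) (v : Finset ι)
    (h1 : ∀ k, Even (∑ i ∈ v, lk L i k)) (h2 : (∑ i ∈ v, ∑ k ∈ v, lk L i k) % 4 = 2) :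
    2 ≤ Module.rank (RatFunc ℚ) (SkeinModule L) := by
  choose Dj hDj using exists_merids hL
  obtain ⟨θ, Λ, a1, ⟨j, a2⟩, a3⟩ := @exists_eval ι _ _ (famPow 2 le_rfl tot_two) L hL v h1 h2 Dj hDj
    0 fun t => Nat.even_iff.1 ((Nat.even_pow' (Nat.succ_ne_zero _)).2 even_two)
  obtain ⟨θ', Λ', b1, ⟨j', b2⟩, b3⟩ := @exists_eval ι _ _ (famPow 3 (by norm_num) tot_three) L hL v
    h1 h2 Dj hDj 1 fun t => Nat.odd_iff.1 (Odd.pow (by decide))
  have c1 := mt (a3 j) a2
  have c2 := mt (b3 j') b2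
  rw [Nat.odd_iff] at c1 c2
  have c3 := a3 j' (by rw [Nat.odd_iff]; omega)
  have c4 := b3 j (by rw [Nat.odd_iff]; omega)
  generalize (Submodule.Quotient.mk (Finsupp.single (Dj j) 1) : SkeinModule L) = x at *
  generalize (Submodule.Quotient.mk (Finsupp.single (Dj j') 1) : SkeinModule L) = y at *
  have h : LinearIndependent (RatFunc ℚ) ![x, y] := by
    refine LinearIndependent.pair_iff.2 fun s t hst => ⟨?_, ?_⟩
    · have := congrArg Λ hst
      rw [map_add, a1, a1, c3, mul_zero, add_zero, map_zero] at this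
      by_contra hs
      exact a2 (((IsUnit.mk0 s hs).map θ).mul_right_eq_zero.1 this)
    · have := congrArg Λ' hst
      rw [map_add, b1, b1, c4, mul_zero, zero_add, map_zero] at this
      by_contra ht
      exact b2 (((IsUnit.mk0 t ht).map θ').mul_right_eq_zero.1 this)
  simpa using h.cardinal_lift_le_rank

end Pool.Agent.P.MP_53e370_gt
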