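import Pool.Agent.P.MP_53e370_gt.Gam
import Pool.Agent.P.MP_ac4909_gt.Ref
import Pool.Agent.P.MP_ac4909_gt.Ev

/-! Strands of the top colour can be removed from a diagram at the cost of a local phase. -/

namespace Pool.Agent.P.MP_53e370_gt

open Pool.Agent.P.MP_ac4909_gt Rev

variable {K : Type} [Field K] {R : Type} [Ring R] [Algebra K R] {α : Type}

/-- the number of strands labelled `none` -/
def cnt : List (Option α) → ℕ
  | [] => 0
  | none :: ρ => cnt ρ + 1
  | some _ :: ρ => cnt ρ

/-- the width of the other strands -/
def pw (j : α → ℕ) : List (Option α) → ℕ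
  | [] => 0
  | none :: ρ => pw j ρ
  | some x :: ρ => j x + pw j ρ

theorem cnt_append (l r : List (Option α)) : cnt (l ++ r) = cnt l + cnt r := by
  induction l with
  | nil => simp [cnt]
  | cons x l ih => cases x <;> simp only [List.cons_append, cnt, ih, add_right_comm]

theorem pw_append (j : α → ℕ) (l r : List (Option α)) : pw j (l ++ r) = pw j l + pw j r := by
  induction l with
  | nil => simp [pw]
  | cons x l ih => cases x <;> simp only [List.cons_append, pw, ih, add_assoc]

theorem pw_eq (j : α → ℕ) (l : List (Option α)) : wid j l.reduceOption = pw j l := by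
  induction l with
  | nil => rfl
  | cons x l ih => cases x <;> simp [pw, ih]

variable (T : TL K R) (N : ℕ) (j : α → ℕ)

/-- `none` has the colour `N`, and `some x` is `j x` plain strands -/
def gcol : Col (Option α) R := ⟨fun x => x.elim N j, fun x => x.elim (T.f N) fun _ _ => 1⟩

theorem wid_gcol (l : List (Option α)) : wid (gcol T N j).n l = pw j l + cnt l * N := by
  induction l with
  | nil => simp [pw, cnt]
  | cons x l ih =>
    rw [wid_cons, ih]
    cases x <;> simp only [pw, cnt, gcol, Option.elim] <;> ring

/-- the strands `none` come from the far right, passing over the others -/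
def W : List (Option α) → ℕ → R
  | [], _ => 1
  | none :: ρ, p => W ρ (p + N) * T.crC false (pw j ρ) N p
  | some x :: ρ, p => W ρ (p + j x)

theorem loc_W (ρ : List (Option α)) :
    T.Loc (pw j ρ + cnt ρ * N) (pw j ρ + cnt ρ * N) (W T N j ρ) := by
  induction ρ with
  | nil => exact (TL.Loc.one _).cast rfl rfl fun _ => rfl
  | cons x ρ ih =>
    cases x with
    | none =>
      exact TL.Loc.mul (n := pw j (none :: ρ) + cnt (none :: ρ) * N)
        ((ih.padL N).cast (by simp only [pw, cnt]; ring) (by simp only [pw, cnt]; ring)
          fun _ => rfl)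
        (((T.loc_crC false (pw j ρ) N).padR (cnt ρ * N)).cast (by simp only [pw, cnt]; ring)
          (by simp only [pw, cnt]; ring) fun _ => rfl)
    | some x =>
      exact (ih.padL (j x)).cast (by simp only [pw, cnt]; ring) (by simp only [pw, cnt]; ring)
        fun _ => rfl

variable {T N j}

theorem W_plain {a b : ℕ} {y : ℕ → R} (hy : T.Loc a b y) {σ σ' r : List (Option α)}
    (h : ∀ p, W T N j σ p = W T N j r (p + a)) (h' : ∀ p, W T N j σ' p = W T N j r (p + b))
    (e : pw j σ = a + pw j r) (e' : pw j σ' = b + pw j r) (l : List (Option α)) : ∀ p,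
    y (p + (pw j l + cnt l * N)) * W T N j (l ++ σ) p = W T N j (l ++ σ') p * y (p + pw j l) := by
  induction l with
  | nil =>
    intro p
    simp only [pw, cnt, zero_mul, add_zero, List.nil_append, h, h']
    exact hy.far' (loc_W T N j r) p _ _ le_rfl (by omega)
  | cons x l ih =>
    intro p
    cases x with
    | none =>
      have h1 := (((hy.padL (pw j l)).padR (pw j r)).natL false N p)
      simp only [List.cons_append, W, pw, cnt, pw_append, e, e']
      rw [show p + (pw j l + (cnt l + 1) * N) = p + N + (pw j l + cnt l * N) by ring, ← mul_assoc,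
        ih, mul_assoc, mul_assoc, ← add_assoc, ← add_assoc, h1]
    | some x =>
      simp only [List.cons_append, W, pw, cnt]
      rw [show p + (j x + pw j l + cnt l * N) = p + j x + (pw j l + cnt l * N) by ring, ih,
        add_assoc]

theorem W_rep (k : ℕ) (r : List (Option α)) : ∀ p, W T N j (List.replicate k none ++ r) p =
    W T N j r (p + k * N) * T.crC false (pw j r) (k * N) p ∧
      pw j (List.replicate k none ++ r) = pw j r := by
  induction k with
  | zero => intro p; simp [TL.crC]
  | succ k ih =>
    intro p
    simp only [List.replicate_succ, List.cons_append, W, pw, (ih _).1, (ih 0).2, and_true]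
    rw [show (k + 1) * N = N + k * N by ring, T.hexR, mul_assoc, add_assoc]

theorem W_top {k k' : ℕ} {y : ℕ → R} (hy : T.Loc (k * N) (k' * N) y) (r l : List (Option α)) :
    ∀ p, y (p + (pw j l + cnt l * N)) * W T N j (l ++ (List.replicate k none ++ r)) p =
      W T N j (l ++ (List.replicate k' none ++ r)) p * y (p + (pw j l + pw j r) + cnt l * N) := by
  induction l with
  | nil =>
    intro p
    have h1 := hy.far' (loc_W T N j r) p (p + k * N) (p + k' * N) le_rfl (by omega)
    have h2 := hy.natR false (pw j r) p
    simp only [pw, cnt, zero_mul, add_zero, List.nil_append, zero_add, (W_rep _ _ _).1]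
    rw [← mul_assoc, h1, mul_assoc, ← h2, mul_assoc]
  | cons x l ih =>
    intro p
    cases x with
    | none =>
      have h1 := (T.loc_crC false (pw j l + pw j r) N).far' hy p
        (p + (pw j l + pw j r) + (cnt l + 1) * N) (p + N + (pw j l + pw j r) + cnt l * N)
        (by nlinarith [Nat.zero_le (cnt l * N)]) (by ring)
      simp only [List.cons_append, W, pw, cnt, pw_append, (W_rep (T := T) (N := N) _ _ 0).2]
      rw [show p + (pw j l + (cnt l + 1) * N) = p + N + (pw j l + cnt l * N) by ring, ← mul_assoc,
        ih, mul_assoc, mul_assoc, h1]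
    | some x =>
      simp only [List.cons_append, W, pw, cnt]
      rw [show p + (j x + pw j l + cnt l * N) = p + j x + (pw j l + cnt l * N) by ring, ih]
      congr 2
      ring

theorem W_mix {y : ℕ → R} {σ σ' : List (Option α)} (h : ∀ p, y p * W T N j σ p = W T N j σ' p)
    (e : pw j σ = pw j σ') (l : List (Option α)) : ∀ p,
    y (p + (pw j l + cnt l * N)) * W T N j (l ++ σ) p = W T N j (l ++ σ') p := by
  induction l with
  | nil => intro p; simpa [pw, cnt] using h p
  | cons x l ih =>
    intro p
    cases x with
    | none =>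
      simp only [List.cons_append, W, pw, cnt, pw_append, e]
      rw [show p + (pw j l + (cnt l + 1) * N) = p + N + (pw j l + cnt l * N) by ring, ← mul_assoc,
        ih]
    | some x =>
      simp only [List.cons_append, W, pw, cnt]
      rw [show p + (j x + pw j l + cnt l * N) = p + j x + (pw j l + cnt l * N) by ring, ih]

theorem W_over (x : α) (r : List (Option α)) (p : ℕ) :
    T.crC false (j x) N p * W T N j (some x :: none :: r) p = W T N j (none :: some x :: r) p := by
  have h1 := (T.loc_crC false (j x) N).far' (loc_W T N j r) p (p + j x + N) (p + N + j x)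
    (by omega) (by omega)
  simp only [W, pw]
  rw [← mul_assoc, h1, T.hexL, mul_assoc]

theorem W_over' (x : α) (r : List (Option α)) (p : ℕ) :
    T.crC true N (j x) p * W T N j (none :: some x :: r) p = W T N j (some x :: none :: r) p := by
  have h1 : T.crC true N (j x) p * T.crC false (j x) N p = 1 := T.r2C false (j x) N p
  rw [← W_over, ← mul_assoc, h1, one_mul]

variable (T N j)

/-- the normal form of the strands `none` -/
def V (ρ : List (Option α)) : R := W T N j ρ 0 * Gam T N (cnt ρ / 2) (pw j ρ)

/-- the local phase -/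
def ph (s : Sl (Option α)) : K :=
  match s.g with
  | .cup none => (-1) ^ (N * cnt s.l)
  | .cap none => (-1) ^ (N * (cnt s.l + 1))
  | .cr none none b => tw T N b
  | .cr (some x) none true => (-1) ^ j x
  | .cr none (some y) false => (-1) ^ j y
  | _ => 1

variable {T N j}

theorem f_V (h : Top T N) (l r : List (Option α)) (he : Even (cnt (l ++ none :: r))) :
    T.f N (pw j l + cnt l * N) * V T N j (l ++ none :: r) = V T N j (l ++ none :: r) := by
  have h1 := W_top (j := j) (k := 1) (k' := 1)
    ((T.loc_f N).cast (one_mul N).symm (one_mul N).symm fun _ => rfl) r l 0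
  simp only [zero_add, List.replicate_one, List.singleton_append] at h1
  rw [V, ← mul_assoc, h1, mul_assoc, pw_append, pw, h.f_Gam]
  rw [cnt_append, cnt, Nat.even_iff] at *
  omega

theorem V_plain {a b : ℕ} {y : ℕ → R} (hy : T.Loc a b y) {σ σ' r : List (Option α)}
    (h : ∀ p, W T N j σ p = W T N j r (p + a)) (h' : ∀ p, W T N j σ' p = W T N j r (p + b))
    (e : pw j σ = a + pw j r) (e' : pw j σ' = b + pw j r) (c : cnt σ = cnt σ')
    (l : List (Option α)) :
    y (pw j l + cnt l * N) * V T N j (l ++ σ) = V T N j (l ++ σ') * y (pw j l) := by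
  have h1 := W_plain hy h h' e e' l 0
  have h2 := hy.far' (loc_Gam T N (cnt (l ++ σ) / 2)) (pw j l) (pw j (l ++ σ)) (pw j (l ++ σ'))
    (by rw [pw_append]; omega) (by rw [pw_append, pw_append]; omega)
  simp only [zero_add] at h1
  rw [V, V, ← mul_assoc, h1, mul_assoc, h2, cnt_append, cnt_append, c, mul_assoc]

theorem V_top {k k' : ℕ} {y : ℕ → R} (hy : T.Loc (k * N) (k' * N) y) (r l : List (Option α))
    (c : K) (h : y (pw j l + pw j r + cnt l * N) *
      Gam T N (cnt (l ++ (List.replicate k none ++ r)) / 2) (pw j l + pw j r) =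
      c • Gam T N (cnt (l ++ (List.replicate k' none ++ r)) / 2) (pw j l + pw j r)) :
    y (pw j l + cnt l * N) * V T N j (l ++ (List.replicate k none ++ r)) =
      c • V T N j (l ++ (List.replicate k' none ++ r)) := by
  have h1 := W_top (j := j) hy r l 0
  simp only [zero_add] at h1
  rw [V, V, ← mul_assoc, h1, mul_assoc, pw_append j l, pw_append j l,
    (W_rep (T := T) (N := N) _ _ 0).2, (W_rep (T := T) (N := N) _ _ 0).2, h, mul_smul_comm]

theorem V_mix {y : ℕ → R} {σ σ' : List (Option α)} (h : ∀ p, y p * W T N j σ p = W T N j σ' p)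
    (e : pw j σ = pw j σ') (c : cnt σ = cnt σ') (l : List (Option α)) :
    y (pw j l + cnt l * N) * V T N j (l ++ σ) = V T N j (l ++ σ') := by
  have h1 := W_mix h e l 0
  simp only [zero_add] at h1
  rw [V, V, ← mul_assoc, h1, pw_append, pw_append, cnt_append, cnt_append, e, c]

variable [Rev α]

theorem step (h : Top T N) (hj : ∀ x, j (rev x) = j x) (s : Sl (Option α)) (he : Even (cnt s.src)) :
    Even (cnt s.tgt) ∧ T.val (gcol T N j) s * V T N j s.src =
      ph T N j s • (V T N j s.tgt * T.ev (Col.plain j) (erase [s])) := by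
  obtain ⟨l, g, r⟩ := s
  rcases g with (_ | o) | (_ | o) | ⟨_ | x, _ | y, b⟩ <;>
    simp only [Sl.src, Sl.tgt, Gen.src, Gen.tgt, List.append_assoc, List.cons_append,
      List.nil_append, rev_none, rev_some, TL.val, TL.gval, wid_gcol, erase, Gen.erase,
      List.filterMap_cons, List.filterMap_nil, Option.map_none, Option.map_some, TL.ev, mul_one,
      one_mul, ph, Col.plain, pw_eq, one_smul] at he ⊢
  · refine ⟨by simp only [cnt_append, cnt, Nat.even_iff] at he ⊢; omega, ?_⟩
    refine V_top (k := 0) (k' := 2) (y := ecup T N)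
      ((loc_ecup T N).cast (by simp) (two_mul N).symm fun _ => rfl) r l _ ?_
    simp only [cnt_append, cnt, Nat.even_iff, List.replicate, List.cons_append,
      List.nil_append] at he ⊢
    rw [h.ecup_Gam _ _ _ (by omega), show (cnt l + (cnt r + 1 + 1)) / 2 = (cnt l + cnt r) / 2 + 1
      by omega]
  · refine ⟨by simpa only [cnt_append, cnt] using he, ?_⟩
    exact V_plain (j := j) (y := fun p => 1 * T.cupC (j o) p) (r := r) (σ := r)
      (σ' := some o :: some (rev o) :: r) ((T.loc_cupC (j o)).cast rfl rfl fun _ => (one_mul _).symm) (fun _ => rfl)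
      (fun p => by simp only [W, hj, add_assoc]) (by simp) (by simp only [pw, hj, add_assoc])
      rfl l |>.trans (by rw [one_mul])
  · refine ⟨by simp only [cnt_append, cnt, Nat.even_iff] at he ⊢; omega, ?_⟩
    refine V_top (k := 2) (k' := 0) (y := fun p => T.capC N p * T.f N p)
      ((TL.Loc.mul (T.loc_capC N) ((T.loc_f N).padR N)).cast (two_mul N).symm (by simp)
        fun _ => rfl) r l _ ?_
    simp only [cnt_append, cnt, Nat.even_iff, List.replicate, List.cons_append,
      List.nil_append] at he ⊢
    rw [show (cnt l + (cnt r + 1 + 1)) / 2 = (cnt l + cnt r) / 2 + 1 by omega,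
      h.cap_Gam _ _ _ (by omega)]
  · refine ⟨by simpa only [cnt_append, cnt] using he, ?_⟩
    exact V_plain (j := j) (y := fun p => T.capC (j o) p * 1) (r := r) (σ' := r)
      (σ := some o :: some (rev o) :: r) ((T.loc_capC (j o)).cast rfl rfl fun _ => (mul_one _).symm)
      (fun p => by simp only [W, hj, add_assoc]) (fun _ => rfl) (by simp only [pw, hj, add_assoc])
      (by simp) rfl l |>.trans (by rw [mul_one])
  · refine ⟨he, ?_⟩
    refine V_top (k := 2) (k' := 2) (y := T.crC b N N)
      ((T.loc_crC b N N).cast (two_mul N).symm (two_mul N).symm fun _ => rfl) r l _ ?_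
    simp only [cnt_append, cnt, Nat.even_iff, List.replicate, List.cons_append,
      List.nil_append] at he ⊢
    rw [show (cnt l + (cnt r + 1 + 1)) / 2 = (cnt l + cnt r) / 2 + 1 by omega,
      h.cr_Gam _ _ _ _ (by omega)]
  · refine ⟨by simpa only [cnt_append, cnt] using he, ?_⟩
    have h1 := V_mix (W_over' (T := T) (N := N) (j := j) y r) rfl rfl l
    cases b
    · have h2 := f_V (j := j) h l (some y :: r) he
      have h3 := h.change (j y) (pw j l + cnt l * N)
      rw [← h1, ← h2, ← mul_assoc, ← mul_assoc, h3, smul_mul_assoc, smul_smul, ← mul_pow,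
        neg_mul_neg, one_mul, one_pow, one_smul]
      rfl
    · exact h1.trans (one_smul _ _).symm
  · refine ⟨by simpa only [cnt_append, cnt] using he, ?_⟩
    have h1 := V_mix (W_over (T := T) (N := N) (j := j) x r) rfl rfl l
    cases b
    · exact h1.trans (one_smul _ _).symm
    · have h2 := f_V (j := j) h (l ++ [some x]) r (by simpa using he)
      have h3 := h.change' (j x) (pw j l + cnt l * N)
      simp only [List.append_assoc, List.cons_append, List.nil_append, pw_append, cnt_append, pw,
        cnt, add_zero] at h2
      rw [add_right_comm] at h2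
      rw [← h1, ← h2, ← mul_assoc, ← mul_assoc, ← smul_mul_assoc, ← h3]
      rfl
  · refine ⟨by simpa only [cnt_append, cnt] using he, ?_⟩
    exact V_plain (j := j) (y := T.crC b (j x) (j y)) (r := r) (σ := some x :: some y :: r)
      (σ' := some y :: some x :: r) (T.loc_crC b (j x) (j y))
      (fun p => by simp only [W, add_assoc]) (fun p => by simp only [W, add_assoc])
      (by simp only [pw, add_assoc]) (by simp only [pw, add_assoc]) rfl l

theorem sweep (h : Top T N) (hj : ∀ x, j (rev x) = j x) {w : List (Sl (Option α))}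
    {ρ ρ' : List (Option α)} (hw : Run ρ w ρ') (he : Even (cnt ρ)) :
    T.ev (gcol T N j) w * V T N j ρ =
      (w.map (ph T N j)).prod • (V T N j ρ' * T.ev (Col.plain j) (erase w)) := by
  induction w generalizing ρ with
  | nil => simp [show ρ = ρ' from hw, TL.ev, erase]
  | cons s w ih =>
    obtain ⟨rfl, h2⟩ := hw
    obtain ⟨h3, h4⟩ := step h hj s he
    rw [TL.ev, mul_assoc, h4, mul_smul_comm, ← mul_assoc, ih h2 h3, smul_mul_assoc, smul_smul,
      List.map_cons, List.prod_cons, ← List.singleton_append (l := w), erase_append, T.ev_append,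
      mul_assoc]

theorem sweep_closed (h : Top T N) (hj : ∀ x, j (rev x) = j x) {w : List (Sl (Option α))}
    (hw : Run [] w []) :
    T.ev (gcol T N j) w = (w.map (ph T N j)).prod • T.ev (Col.plain j) (erase w) := by
  simpa [V, W, cnt, Gam] using sweep h hj hw (by simp [cnt])

end Pool.Agent.P.MP_53e370_gt
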