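import Pool.Agent.P.MP_53e370_gt.Defs
import Pool.Agent.P.MP_53e370_gt.Sweep
import Pool.Agent.P.MP_ac4909_gt.Limit
import Pool.Agent.P.MP_ac4909_gt.Cable

/-! The total phase of a parallel of the sublink `v` that carries the top colour. -/

namespace Pool.Agent.P.MP_53e370_gt

open Pool.Agent.P.MP_ac4909_gt Rev

variable {K : Type} [Field K] {R : Type} [Ring R] [Algebra K R] {ι : Type} [DecidableEq ι]
  (v : Finset ι)

/-- a parallel copy of the sublink `v` -/
def par (a : Arc ι) : List (Option (Arc ι)) :=
  if a.name ∈ v then (if a.up then [none, some a] else [some a, none]) else [some a]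

/-- the number of strands of `v` -/
def vc : List (Arc ι) → ℕ
  | [] => 0
  | x :: ρ => (if x.name ∈ v then 1 else 0) + vc ρ

/-- the number of upward strands of `v` -/
def uc : List (Arc ι) → ℕ
  | [] => 0
  | x :: ρ => (if x.name ∈ v ∧ x.up then 1 else 0) + uc ρ

/-- the sum of the positions of the upward strands among the strands of `v` -/
def pot : List (Arc ι) → ℕ
  | [] => 0
  | x :: ρ => (if x.name ∈ v then uc v ρ else 0) + pot ρ

theorem uc_append (l r : List (Arc ι)) : uc v (l ++ r) = uc v l + uc v r := by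
  induction l with
  | nil => simp [uc]
  | cons x l ih => simp only [List.cons_append, uc, ih, add_assoc]

theorem pot_append (l r : List (Arc ι)) :
    pot v (l ++ r) = pot v l + pot v r + vc v l * uc v r := by
  induction l with
  | nil => simp [pot, vc]
  | cons x l ih =>
    simp only [List.cons_append, pot, vc, ih, uc_append]
    split_ifs <;> ring

theorem cnt_par (l : List (Arc ι)) : cnt (l.flatMap (par v)) = vc v l := by
  induction l with
  | nil => rfl
  | cons x l ih =>
    rw [List.flatMap_cons, cnt_append, ih, vc, par]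
    split_ifs <;> rfl

theorem red_par (l : List (Arc ι)) : (l.flatMap (par v)).reduceOption = l := by
  induction l with
  | nil => rfl
  | cons x l ih =>
    rw [List.flatMap_cons, List.reduceOption_append, ih, par]
    split_ifs <;> rfl

theorem cable_cons {α β : Type} [Rev β] (κ : α → List β) (s : Sl α) (w : List (Sl α)) :
    cable κ (s :: w) = cable κ [s] ++ cable κ w := by
  simp [cable]

variable (T : TL K R) (N : ℕ) (j : ι → ℕ)

/-- the phase of a slice of `L` -/
def Ph (s : Sl (Arc ι)) : K :=
  match s.g with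
  | .cup o => if o.name ∈ v then (-1) ^ (N * vc v s.l) else 1
  | .cap o => if o.name ∈ v then (-1) ^ (N * (vc v s.l + 1)) else 1
  | .cr x y b => (if x.name ∈ v ∧ y.name ∈ v then tw T N b else 1) *
      if (if b then y else x).name ∈ v then (-1) ^ j (if b then x else y).name else 1

theorem par_slice (s : Sl (Arc ι)) :
    Run (s.src.flatMap (par v)) (cable (par v) [s]) (s.tgt.flatMap (par v)) ∧
      erase (cable (par v) [s]) = [s] ∧
      ((cable (par v) [s]).map (ph T N fun a => j a.name)).prod = Ph v T N j s := by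
  obtain ⟨l, g, r⟩ := s
  rcases g with ⟨i, u⟩ | ⟨i, u⟩ | ⟨⟨i, u⟩, ⟨i', u'⟩, b⟩
  · by_cases hi : i ∈ v <;> cases u <;>
      simp [cable, par, hi, cups, run_cons, run_nil, Sl.src, Sl.tgt, Gen.src, Gen.tgt, erase,
        Gen.erase, red_par, List.reduceOption_append, ph, Ph, cnt_append, cnt_par, cnt]
  · by_cases hi : i ∈ v <;> cases u <;>
      simp [cable, par, hi, caps, run_cons, run_nil, Sl.src, Sl.tgt, Gen.src, Gen.tgt, erase,
        Gen.erase, red_par, List.reduceOption_append, ph, Ph, cnt_append, cnt_par, cnt]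
  · by_cases hi : i ∈ v <;> by_cases hi' : i' ∈ v <;> cases u <;> cases u' <;> cases b <;>
      simp [cable, par, hi, hi', cross, cross1, run_cons, run_nil, Sl.src, Sl.tgt, Gen.src,
        Gen.tgt, erase, Gen.erase, red_par, List.reduceOption_append, ph, Ph, mul_comm]

theorem par_word {ρ σ : List (Arc ι)} {w : List (Sl (Arc ι))} (hw : Run ρ w σ) :
    Run (ρ.flatMap (par v)) (cable (par v) w) (σ.flatMap (par v)) ∧
      erase (cable (par v) w) = w ∧
      ((cable (par v) w).map (ph T N fun a => j a.name)).prod = (w.map (Ph v T N j)).prod := by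
  induction w generalizing ρ with
  | nil => exact ⟨congrArg _ hw, rfl, rfl⟩
  | cons s w ih =>
    obtain ⟨rfl, h2⟩ := hw
    obtain ⟨a1, a2, a3⟩ := par_slice v T N j s
    obtain ⟨b1, b2, b3⟩ := ih h2
    rw [cable_cons, erase_append, List.map_append, List.prod_append, a2, a3, b2, b3]
    exact ⟨run_append.2 ⟨_, a1, b1⟩, rfl, rfl⟩

theorem tens_par : (gcol T N fun a : Arc ι => j a.name).tens (par v) =
    T.jcA (fun i => if i ∈ v then N else 0) j fun _ => true := by
  unfold Col.tens TL.jcA
  congr 1
  · funext ⟨i, u⟩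
    by_cases hi : i ∈ v <;> cases u <;> simp [par, hi, gcol, add_comm]
  · funext ⟨i, u⟩ p
    by_cases hi : i ∈ v <;> cases u <;> simp [par, hi, gcol, row, TL.f]

variable {T N}

theorem ev_top (h : Top T N) {L : List (Sl (Arc ι))} (hL : Run [] L []) :
    T.ev (T.jcA (fun i => if i ∈ v then N else 0) j fun _ => true) L =
      (L.map (Ph v T N j)).prod • T.ev (Col.plain fun a : Arc ι => j a.name) L := by
  obtain ⟨a1, a2, a3⟩ := par_word v T N j hL
  rw [← tens_par, ← T.ev_cable, sweep_closed h (fun _ => rfl) a1, a2, a3]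
  rintro (_ | x)
  · exact T.loc_f N
  · exact TL.Loc.one _

end Pool.Agent.P.MP_53e370_gt
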