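import Pool.Agent.P.MP_53e370_gt.Total

/-! The symmetry principle for the coloured Jones function at a root of unity. -/

namespace Pool.Agent.P.MP_53e370_gt

open Pool.Agent.P.MP_ac4909_gt Polynomial.Chebyshev

variable {K : Type} [Field K] {R : Type} [Ring R] [Algebra K R] {ι : Type} [DecidableEq ι]
  [Fintype ι]

theorem cheb_refl (N : ℤ) (m : ℕ) : S ℤ (N + 1) ∣ S ℤ (N - m) - S ℤ N * S ℤ m := by
  induction m using Nat.twoStepInduction with
  | zero => simp
  | one =>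
    refine ⟨-1, ?_⟩
    have := S_add_one ℤ N
    simp only [Nat.cast_one, S_one]
    linear_combination this
  | more m h0 h1 =>
    have e1 := S_sub_two ℤ (N - m)
    have e2 := S_add_two ℤ (m : ℤ)
    have e : S ℤ (N - (m + 2 : ℕ)) - S ℤ N * S ℤ (m + 2 : ℕ) =
        Polynomial.X * (S ℤ (N - (m + 1 : ℕ)) - S ℤ N * S ℤ (m + 1 : ℕ)) -
          (S ℤ (N - m) - S ℤ N * S ℤ m) := by
      push_cast
      rw [← sub_sub N m 1, show N - (m + 2) = N - m - 2 by ring, e1, e2]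
      ring
    rw [e]
    exact dvd_sub (h1.mul_left _) h0

omit [Fintype ι] in
theorem prod_congr_mod {A M : Type} [CommRing A] [AddCommGroup M] (φ : A →+ M) (z a b : ι → A)
    (hz : ∀ i h, φ (z i * h) = 0) (hab : ∀ i, z i ∣ a i - b i) (s : Finset ι) :
    ∀ h, φ ((∏ i ∈ s, a i) * h) = φ ((∏ i ∈ s, b i) * h) := by
  induction s using Finset.induction_on with
  | empty => simp
  | insert i s hi ih =>
    intro h
    obtain ⟨c, hc⟩ := hab i
    rw [Finset.prod_insert hi, Finset.prod_insert hi, mul_comm (a i), mul_assoc, ih,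
      eq_add_of_sub_eq hc, add_mul, mul_add, map_add, mul_assoc (z i), mul_left_comm _ (z i),
      hz, zero_add, mul_left_comm, mul_assoc]

variable {T : TL K R} {N : ℕ} (v : Finset ι)

theorem beta_top [Nontrivial R] (h : Top T N) {L : List (Sl (Arc ι))} (hL : IsFramedLink L)
    (h1 : ∀ k, Even (∑ i ∈ v, lk L i k)) (h2 : (∑ i ∈ v, ∑ k ∈ v, lk L i k) % 4 = 2)
    (p : MvPolynomial ι ℤ) :
    lev T.a T.ha (beta L (chb (fun i => ((if i ∈ v then N else 0 : ℕ) : ℤ) + 1) * p)) =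
      (-1) ^ (N * (v.card + 1)) * lev T.a T.ha (beta L p) := by
  induction p using MvPolynomial.induction_on' with
  | add p q hp hq => rw [mul_add, map_add, map_add, hp, hq, map_add, map_add, ← mul_add]
  | monomial n c =>
    have a1 := T.ev_jcA hL (fun i => if i ∈ v then N else 0) n (fun _ => true) fun i =>
      h.adm'.mono (by split_ifs <;> omega)
    have a2 := T.ev_jcA hL 0 n (fun _ => true) fun i => h.adm'.mono (Nat.zero_le _)
    have e1 : (T.jcA 0 n fun _ => true) = Col.plain fun a : Arc ι => n a.name := by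
      simp [TL.jcA, Col.plain, TL.f]
    have e2 : chb (fun i : ι => (((0 : ι → ℕ) i : ℕ) : ℤ) + 1) = 1 := by simp [chb]
    rw [ev_top v n h hL.1, total v h n hL h1 h2, ← e1, a2, e2, one_mul, Algebra.smul_def,
      ← map_mul, cheb_monomial, Finsupp.equivFunOnFinite_symm_coe] at a1
    have a3 := (algebraMap K R).injective a1
    have e : (MvPolynomial.monomial n c : MvPolynomial ι ℤ) = c • MvPolynomial.monomial n 1 := by
      rw [MvPolynomial.smul_monomial, smul_eq_mul, mul_one]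
    rw [e, mul_smul_comm, map_smul, map_zsmul, map_smul, map_zsmul, ← a3, mul_smul_comm]

theorem JP_sym [Nontrivial R] (h : Top T N) {L : List (Sl (Arc ι))} (hL : IsFramedLink L)
    (h1 : ∀ k, Even (∑ i ∈ v, lk L i k)) (h2 : (∑ i ∈ v, ∑ k ∈ v, lk L i k) % 4 = 2)
    (m : ι → ℕ) (hm : ∀ i, m i ≤ N) :
    lev T.a T.ha (JP L fun i => ((if i ∈ v then N - m i else m i : ℕ) : ℤ) + 1) =
      (-1) ^ (N * (v.card + 1)) * lev T.a T.ha (JP L fun i => (m i : ℤ) + 1) := by
  rw [JP, JP, ← beta_top v h hL h1 h2, chb, chb, chb, ← Finset.prod_mul_distrib]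
  have key := prod_congr_mod
    ((lev T.a T.ha).toAddMonoidHom.comp (beta L).toAddMonoidHom)
    (fun i => Polynomial.aeval (MvPolynomial.X i : MvPolynomial ι ℤ) (S ℤ ((N + 1 : ℕ) : ℤ)))
    (fun i => Polynomial.aeval (MvPolynomial.X i : MvPolynomial ι ℤ)
      (S ℤ (((if i ∈ v then N - m i else m i : ℕ) : ℤ) + 1 - 1)))
    (fun i => Polynomial.aeval (MvPolynomial.X i : MvPolynomial ι ℤ)
      (S ℤ (((if i ∈ v then N else 0 : ℕ) : ℤ) + 1 - 1)) *
        Polynomial.aeval (MvPolynomial.X i : MvPolynomial ι ℤ) (S ℤ ((m i : ℤ) + 1 - 1)))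
    (fun i p => cheb_vanish T hL (N + 1) h.adm h.zero i p) (fun i => ?_) Finset.univ 1
  · rw [mul_one, mul_one] at key
    exact key
  · simp only [add_sub_cancel_right]
    rw [← map_mul, ← map_sub]
    refine map_dvd _ ?_
    split_ifs
    · rw [Nat.cast_sub (hm i), Nat.cast_add_one]
      exact cheb_refl N (m i)
    · simp

theorem pow_refl {a : K} (hr : a ^ (2 * (N + 2)) = -1) {m : ℕ} (hm : m ≤ N) :
    a ^ (2 * (N - m) + 2) = -a⁻¹ ^ (2 * m + 2) ∧ a⁻¹ ^ (2 * (N - m) + 2) = -a ^ (2 * m + 2) := by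
  have h1 : a ^ (2 * (N - m) + 2) * -a ^ (2 * m + 2) = 1 := by
    rw [mul_neg, ← pow_add, show 2 * (N - m) + 2 + (2 * m + 2) = 2 * (N + 2) by omega, hr, neg_neg]
  rw [inv_pow, inv_pow, neg_inv]
  exact ⟨eq_inv_of_mul_eq_one_left h1, inv_eq_of_mul_eq_one_right h1⟩

theorem mu_refl {a : K} (hr : a ^ (2 * (N + 2)) = -1) {m : ℕ} (hm : m ≤ N) :
    mu a (N - m) = -mu a m := by
  rw [mu, mu, (pow_refl hr hm).1, (pow_refl hr hm).2]
  ring

theorem Dl_refl {a : K} (ha : a ≠ 0) (h4 : a ^ 2 - a⁻¹ ^ 2 ≠ 0) (hr : a ^ (2 * (N + 2)) = -1)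
    {m : ℕ} (hm : m ≤ N) : Dl a (N - m) = (-1) ^ N * Dl a m := by
  refine mul_left_cancel₀ h4 ?_
  have e : (-1 : K) ^ N = (-1) ^ (N - m) * (-1) ^ m := by rw [← pow_add, Nat.sub_add_cancel hm]
  have e' : (-1 : K) ^ m * (-1) ^ m = 1 := by rw [← mul_pow, neg_mul_neg, one_mul, one_pow]
  rw [mul_left_comm, Dl_closed a ha, Dl_closed a ha, (pow_refl hr hm).1, (pow_refl hr hm).2, e]
  linear_combination (-(-1) ^ (N - m) * (a ^ (2 * m + 2) - a⁻¹ ^ (2 * m + 2))) * e'

end Pool.Agent.P.MP_53e370_gt
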