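import Pool.Agent.P.MP_53e370_gt.Phase

/-! The total phase in terms of the linking matrix. -/

namespace Pool.Agent.P.MP_53e370_gt

open Pool.Agent.P.MP_ac4909_gt Rev

variable {K : Type} [Field K] {R : Type} [Ring R] [Algebra K R] {ι : Type} [DecidableEq ι]
  (v : Finset ι)

def qS (s : Sl (Arc ι)) : ℕ :=
  match s.g with
  | .cup o => if o.name ∈ v then vc v s.l else 0
  | .cap o => if o.name ∈ v then vc v s.l + 1 else 0
  | .cr x y _ => if x.name ∈ v ∧ y.name ∈ v ∧ x.up ≠ y.up then 1 else 0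

def eS (s : Sl (Arc ι)) : ℕ :=
  match s.g with
  | .cup o => if o.name ∈ v ∧ ¬o.up then 1 else 0
  | .cap o => if o.name ∈ v ∧ o.up then 1 else 0
  | .cr x y _ => if x.name ∈ v ∧ y.name ∈ v then 1 else 0

def aS (s : Sl (Arc ι)) : ℤ :=
  match s.g with
  | .cr x y b => if x.name ∈ v ∧ y.name ∈ v then crSign x y b else 0
  | _ => 0

def uS (j : ι → ℕ) (s : Sl (Arc ι)) : ℤ :=
  match s.g with
  | .cr x y b =>
    if (if b then y else x).name ∈ v then j (if b then x else y).name * crSign x y b else 0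
  | _ => 0

theorem parity_slice (s : Sl (Arc ι)) :
    ((eS v s : ℤ) + qS v s + aS v s + pot v s.src) % 2 = pot v s.tgt % 2 := by
  obtain ⟨l, g, r⟩ := s
  rcases g with ⟨i, u⟩ | ⟨i, u⟩ | ⟨⟨i, u⟩, ⟨i', u'⟩, b⟩
  · by_cases hi : i ∈ v <;> cases u <;>
      simp [eS, qS, aS, Sl.src, Sl.tgt, Gen.src, Gen.tgt, pot_append, pot, uc, hi, mul_add] <;>
      omega
  · by_cases hi : i ∈ v <;> cases u <;>
      simp [eS, qS, aS, Sl.src, Sl.tgt, Gen.src, Gen.tgt, pot_append, pot, uc, hi, mul_add] <;>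
      omega
  · by_cases hi : i ∈ v <;> by_cases hi' : i' ∈ v <;> cases u <;> cases u' <;> cases b <;>
      simp [eS, qS, aS, crSign, Sl.src, Sl.tgt, Gen.src, Gen.tgt, pot_append, pot, uc, hi, hi',
        mul_add] <;> omega

theorem parity_word {ρ σ : List (Arc ι)} {w : List (Sl (Arc ι))} (hw : Run ρ w σ) :
    (((w.map (eS v)).sum : ℕ) + ((w.map (qS v)).sum : ℕ) + (w.map (aS v)).sum + pot v ρ : ℤ) % 2 =
      pot v σ % 2 := by
  induction w generalizing ρ with
  | nil => simp [show ρ = σ from hw]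
  | cons s w ih =>
    obtain ⟨rfl, h2⟩ := hw
    have h3 := ih h2
    have h4 := parity_slice v s
    simp only [List.map_cons, List.sum_cons]
    omega

theorem sg_eq (w : List (Sl (Arc ι))) :
    minusOneSg (fun i => (((if i ∈ v then 1 else 0 : ℕ)) : ZMod 2)) w =
      (-1) ^ (w.map (eS v)).sum := by
  induction w with
  | nil => rfl
  | cons s w ih =>
    rw [minusOneSg, List.map_cons, List.prod_cons, ← minusOneSg, ih, List.map_cons, List.sum_cons,
      pow_add]
    congr 1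
    obtain ⟨l, g, r⟩ := s
    rcases g with ⟨i, u⟩ | ⟨i, u⟩ | ⟨⟨i, u⟩, ⟨i', u'⟩, b⟩
    · by_cases hi : i ∈ v <;> cases u <;> simp [eS, minusOneS, minusOnePm, hi]
    · by_cases hi : i ∈ v <;> cases u <;> simp [eS, minusOneS, minusOnePm, hi]
    · by_cases hi : i ∈ v <;> by_cases hi' : i' ∈ v <;> simp [eS, minusOneS, minusOnePm, hi, hi']

variable [Fintype ι]

theorem sg_link {L : List (Sl (Arc ι))} (hL : IsFramedLink L) (m : ι → ℕ) :
    minusOneSg (fun i => (m i : ZMod 2)) L = (-1) ^ ∑ i, m i := by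
  have h1 := minusOne_SS m L [] ⟨[], hL.1⟩ (by simp)
  have h4 := lev_JP_eq_SS (-1 : ℚ) (by simp) adm_neg_one (fun n j h0 hj => by
    lift j to ℕ using h0
    rw [show (-1 : ℚ) ^ (-4 : ℤ) = 1 by norm_num, gb_one]
    exact Nat.cast_ne_zero.2 (Nat.choose_pos (by exact_mod_cast hj)).ne') hL m
  rw [List.map_nil, ← h4, limit_nat hL, hL.sum_Ref (fun i => Finset.range (m i + 1)),
    Finset.sum_congr rfl (g := fun _ => (minusOneSg (fun i => (m i : ZMod 2)) L : ℚ))] at h1
  · rw [Finset.sum_const, Fintype.card_piFinset, nsmul_eq_mul, Finset.prod_mul_distrib,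
      Finset.prod_pow_eq_pow_sum, mul_comm] at h1
    simp only [Finset.card_range, Nat.cast_prod, Nat.cast_add, Nat.cast_one] at h1
    have h2 := mul_left_cancel₀ (Finset.prod_ne_zero_iff.2 fun i _ => Nat.cast_add_one_ne_zero _) h1
    exact_mod_cast h2.symm
  · intro u hu
    have := minusOne_wt m u (fun i => Nat.lt_succ_iff.1
      (Finset.mem_range.1 (Fintype.mem_piFinset.1 hu i))) L [] [] hL.1
    simpa [minusOnePot] using this

theorem parity_link {L : List (Sl (Arc ι))} (hL : IsFramedLink L) :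
    (((L.map (qS v)).sum : ℕ) + (L.map (aS v)).sum : ℤ) % 2 = v.card % 2 := by
  have h1 := parity_word v hL.1
  have h2 := (sg_eq v L).symm.trans (sg_link hL fun i => if i ∈ v then 1 else 0)
  rw [Finset.sum_ite_mem, Finset.univ_inter, Finset.sum_const, smul_eq_mul, mul_one] at h2
  have h3 : (L.map (eS v)).sum % 2 = v.card % 2 := by
    rcases Nat.even_or_odd (L.map (eS v)).sum with h | h <;>
      rcases Nat.even_or_odd v.card with h' | h' <;>
      rw [h.neg_one_pow, h'.neg_one_pow] at h2 <;>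
      simp only [Nat.even_iff, Nat.odd_iff] at h h' <;> omega
  simp only [pot] at h1
  omega

omit [Fintype ι] in
theorem sum_aS (L : List (Sl (Arc ι))) : (L.map (aS v)).sum = ∑ i ∈ v, ∑ k ∈ v, lk L i k := by
  induction L with
  | nil => simp [lk]
  | cons s w ih =>
    simp only [lk, List.map_cons, List.sum_cons, Finset.sum_add_distrib] at ih ⊢
    rw [ih]
    congr 1
    obtain ⟨l, g, r⟩ := s
    rcases g with o | o | ⟨x, y, b⟩
    · simp [aS, lkGen]
    · simp [aS, lkGen]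
    · cases b <;> by_cases hx : x.name ∈ v <;> by_cases hy : y.name ∈ v <;>
        simp [aS, lkGen, ite_and, hx, hy]

theorem sum_uS (j : ι → ℕ) (L : List (Sl (Arc ι))) :
    (L.map (uS v j)).sum = ∑ k, j k * ∑ i ∈ v, lk L i k := by
  induction L with
  | nil => simp [lk]
  | cons s w ih =>
    simp only [lk, List.map_cons, List.sum_cons, Finset.sum_add_distrib, mul_add] at ih ⊢
    rw [ih]
    congr 1
    obtain ⟨l, g, r⟩ := s
    rcases g with o | o | ⟨x, y, b⟩
    · simp [uS, lkGen]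
    · simp [uS, lkGen]
    · cases b <;> by_cases hx : x.name ∈ v <;> by_cases hy : y.name ∈ v <;>
        simp [uS, lkGen, ite_and, hx, hy]

variable {T : TL K R} {N : ℕ}

omit [Fintype ι] in
theorem Ph_eq (h : Top T N) (j : ι → ℕ) (s : Sl (Arc ι)) :
    Ph v T N j s = tw T N true ^ aS v s * (-1) ^ (N * qS v s) * (-1) ^ uS v j s := by
  have h1 := h.tw_mul
  have h2 := h.tw_sq true
  have h0 : tw T N true ≠ 0 := left_ne_zero_of_mul_eq_one h1
  have h3 : tw T N false = (tw T N true)⁻¹ := eq_inv_of_mul_eq_one_right h1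
  have h4 : (tw T N true)⁻¹ * (-1) ^ N = tw T N true := by
    rw [← h2, ← mul_assoc, inv_mul_cancel₀ h0, one_mul]
  have h5 : tw T N true * (-1) ^ N = (tw T N true)⁻¹ := by
    rw [← h4, mul_assoc, ← mul_pow, neg_mul_neg, one_mul, one_pow, mul_one, h4]
  have h6 : ∀ n : ℕ, ((-1 : K) ^ n)⁻¹ = (-1) ^ n := fun n => by rw [← inv_pow, inv_neg_one]
  obtain ⟨l, g, r⟩ := s
  rcases g with ⟨i, u⟩ | ⟨i, u⟩ | ⟨⟨i, u⟩, ⟨i', u'⟩, b⟩
  · by_cases hi : i ∈ v <;> simp [Ph, qS, aS, uS, hi]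
  · by_cases hi : i ∈ v <;> simp [Ph, qS, aS, uS, hi]
  · by_cases hi : i ∈ v <;> by_cases hi' : i' ∈ v <;> cases u <;> cases u' <;> cases b <;>
      simp [Ph, qS, aS, uS, crSign, hi, hi', h3, h4, h5, h6]

theorem total (h : Top T N) (j : ι → ℕ) {L : List (Sl (Arc ι))} (hL : IsFramedLink L)
    (h1 : ∀ k, Even (∑ i ∈ v, lk L i k)) (h2 : (∑ i ∈ v, ∑ k ∈ v, lk L i k) % 4 = 2) :
    (L.map (Ph v T N j)).prod = (-1) ^ (N * (v.card + 1)) := by
  have h0 : tw T N true ≠ 0 := left_ne_zero_of_mul_eq_one h.tw_mul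
  have key : ∀ w : List (Sl (Arc ι)), (w.map (Ph v T N j)).prod = tw T N true ^ (w.map (aS v)).sum *
      (-1) ^ (N * (w.map (qS v)).sum) * (-1) ^ (w.map (uS v j)).sum := by
    intro w
    induction w with
    | nil => simp
    | cons s w ih =>
      simp only [List.map_cons, List.prod_cons, List.sum_cons, ih, Ph_eq v h, mul_add, pow_add,
        zpow_add₀ h0, zpow_add₀ (neg_ne_zero.2 (one_ne_zero : (1 : K) ≠ 0))]
      ring
  have h3 := parity_link v hL
  have h4 : Even (L.map (uS v j)).sum := by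
    rw [sum_uS]
    exact Finset.even_sum _ fun k _ => (h1 k).mul_left _
  rw [← sum_aS] at h2
  obtain ⟨c, hc⟩ : ∃ c : ℤ, (L.map (aS v)).sum = 2 * (2 * c + 1) := ⟨(L.map (aS v)).sum / 4, by omega⟩
  obtain ⟨e, he⟩ : ∃ e : ℕ, (L.map (qS v)).sum + v.card = 2 * e :=
    ⟨((L.map (qS v)).sum + v.card) / 2, by omega⟩
  have h5 : (-1 : K) ^ (N * (L.map (qS v)).sum) = (-1) ^ (N * v.card) := by
    have e1 : (-1 : K) ^ (N * (L.map (qS v)).sum) * (-1) ^ (N * v.card) = 1 := by
      rw [← pow_add, ← mul_add, he, mul_left_comm, pow_mul, neg_one_sq, one_pow]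
    have e2 : (-1 : K) ^ (N * v.card) * (-1) ^ (N * v.card) = 1 := by
      rw [← mul_pow, neg_mul_neg, one_mul, one_pow]
    exact mul_right_cancel₀ (left_ne_zero_of_mul_eq_one e2) (e1.trans e2.symm)
  have h6 : ((-1 : K) ^ N) ^ (2 * c + 1) = (-1) ^ N := by
    rcases neg_one_pow_eq_or K N with e | e <;> rw [e]
    · exact one_zpow _
    · exact Odd.neg_one_zpow ⟨c, rfl⟩
  rw [key, h4.neg_one_zpow, mul_one, h5, hc, zpow_mul, zpow_ofNat, sq, h.tw_sq, h6, mul_add,
    mul_one, pow_add, mul_comm]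

end Pool.Agent.P.MP_53e370_gt
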